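import Pool.Agent.H63.YL.Cls

/-!
# The value of a node at a partial matching
-/

set_option autoImplicit false
set_option linter.unusedSectionVars false

namespace Pool.Agent.H63.YL

open Equiv

section PM

variable {P H : Type} [DecidableEq P] [DecidableEq H]

/-- a set of disjoint pairs -/
def PM (α : Finset (P × H)) : Prop := ∀ p ∈ α, ∀ q ∈ α, (p.1 = q.1 ↔ p.2 = q.2)

/-- the matched points -/
def dm (α : Finset (P × H)) : Finset (P ⊕ H) :=
  α.image (fun p => Sum.inl p.1) ∪ α.image (fun p => Sum.inr p.2)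

/-- the pair `p` contains the point `x` -/
def Touch (p : P × H) (x : P ⊕ H) : Prop := Sum.inl p.1 = x ∨ Sum.inr p.2 = x

theorem mem_dm {α : Finset (P × H)} {x : P ⊕ H} : x ∈ dm α ↔ ∃ p ∈ α, Touch p x := by
  unfold dm Touch
  rw [Finset.mem_union, Finset.mem_image, Finset.mem_image]
  constructor
  · rintro (⟨p, h1, h2⟩ | ⟨p, h1, h2⟩)
    · exact ⟨p, h1, Or.inl h2⟩
    · exact ⟨p, h1, Or.inr h2⟩
  · rintro ⟨p, h1, h2 | h2⟩
    · exact Or.inl ⟨p, h1, h2⟩
    · exact Or.inr ⟨p, h1, h2⟩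

theorem inl_mem_dm {α : Finset (P × H)} {i : P} : Sum.inl i ∈ dm α ↔ ∃ j, (i, j) ∈ α := by
  rw [mem_dm]
  constructor
  · rintro ⟨⟨i', j⟩, h, h' | h'⟩
    · injection h' with h'
      subst h'
      exact ⟨j, h⟩
    · cases h'
  · rintro ⟨j, h⟩
    exact ⟨(i, j), h, Or.inl rfl⟩

theorem inr_mem_dm {α : Finset (P × H)} {j : H} : Sum.inr j ∈ dm α ↔ ∃ i, (i, j) ∈ α := by
  rw [mem_dm]
  constructor
  · rintro ⟨⟨i, j'⟩, h, h' | h'⟩
    · cases h'
    · injection h' with h'
      subst h'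
      exact ⟨i, h⟩
  · rintro ⟨i, h⟩
    exact ⟨(i, j), h, Or.inr rfl⟩

theorem dm_mono {α β : Finset (P × H)} (h : α ⊆ β) : dm α ⊆ dm β := by
  intro x hx
  obtain ⟨p, h1, h2⟩ := mem_dm.1 hx
  exact mem_dm.2 ⟨p, h h1, h2⟩

theorem PM.mono {α β : Finset (P × H)} (h : α ⊆ β) (hβ : PM β) : PM α :=
  fun p hp q hq => hβ p (h hp) q (h hq)

/-- in a matching the pair which contains a point is unique -/
theorem PM.eq_of_touch {α : Finset (P × H)} (h : PM α) {p q : P × H} (hp : p ∈ α) (hq : q ∈ α)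
    {x : P ⊕ H} (h1 : Touch p x) (h2 : Touch q x) : p = q := by
  have h3 := h p hp q hq
  rcases h1 with h1 | h1 <;> rcases h2 with h2 | h2
  · have h4 : p.1 = q.1 := by rw [← h2] at h1; injection h1
    exact Prod.ext h4 (h3.1 h4)
  · rw [← h2] at h1; cases h1
  · rw [← h2] at h1; cases h1
  · have h4 : p.2 = q.2 := by rw [← h2] at h1; injection h1
    exact Prod.ext (h3.2 h4) h4

/-- transport -/
def mv (σ : Perm P) (τ : Perm H) (α : Finset (P × H)) : Finset (P × H) :=
  α.image fun p => (σ p.1, τ p.2)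

theorem mem_mv {σ : Perm P} {τ : Perm H} {α : Finset (P × H)} {p : P × H} :
    p ∈ mv σ τ α ↔ (σ⁻¹ p.1, τ⁻¹ p.2) ∈ α := by
  unfold mv
  rw [Finset.mem_image]
  constructor
  · rintro ⟨q, h, rfl⟩
    simpa using h
  · intro h
    exact ⟨_, h, by simp⟩

theorem PM.mv {α : Finset (P × H)} (h : PM α) (σ : Perm P) (τ : Perm H) : PM (mv σ τ α) := by
  intro p hp q hq
  rw [mem_mv] at hp hq
  have := h _ hp _ hq
  simpa using this

theorem touch_mv {p : P × H} {x : P ⊕ H} (σ : Perm P) (τ : Perm H) :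
    Touch (σ p.1, τ p.2) (pr σ τ x) ↔ Touch p x := by
  unfold Touch
  rcases x with x | x <;> simp [pr]

theorem dm_mv (σ : Perm P) (τ : Perm H) (α : Finset (P × H)) :
    dm (mv σ τ α) = (dm α).image (pr σ τ) := by
  ext x
  rw [mem_dm, Finset.mem_image]
  constructor
  · rintro ⟨p, hp, hx⟩
    rw [mem_mv] at hp
    refine ⟨(pr σ τ)⁻¹ x, mem_dm.2 ⟨_, hp, ?_⟩, by simp⟩
    rw [← touch_mv σ τ]
    simpa using hx
  · rintro ⟨y, hy, rfl⟩
    obtain ⟨p, hp, hpy⟩ := mem_dm.1 hy
    refine ⟨(σ p.1, τ p.2), ?_, (touch_mv σ τ).2 hpy⟩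
    rw [mem_mv]
    simpa using hp

end PM

variable {P H : Type} [Fintype P] [DecidableEq P] [Fintype H] [DecidableEq H]

/-- the value of a node at the partial matching `α`: conjuncts which are exceptional at an unmatched
point are ignored -/
def val (C : Circuit P H) (α : Finset (P × H)) (a : C.N) : Prop :=
  (∃ p ∈ α, C.gate a = .var p.1 p.2) ∨
    ∃ S, C.gate a = .and S ∧ ∀ x : {x // x ∈ (C.gate a).children},
      sup C a x.1.node ⊆ dm α → (val C α x.1.node ↔ x.1.pos = true)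
termination_by C.rank a
decreasing_by exact C.rank_lt a x.1 x.2

theorem val_var {C : Circuit P H} {α : Finset (P × H)} {a : C.N} {i : P} {j : H}
    (h : C.gate a = .var i j) : val C α a ↔ (i, j) ∈ α := by
  rw [val]
  constructor
  · rintro (⟨p, hp, h1⟩ | ⟨S, h1, -⟩)
    · rw [h] at h1
      injection h1 with h1 h2
      subst h1 h2
      exact hp
    · rw [h] at h1; cases h1
  · intro h1
    exact Or.inl ⟨(i, j), h1, h⟩

theorem val_and {C : Circuit P H} {α : Finset (P × H)} {a : C.N} {S : Set (Lit C.N)}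
    (h : C.gate a = .and S) :
    val C α a ↔ ∀ x ∈ S, sup C a x.node ⊆ dm α → (val C α x.node ↔ x.pos = true) := by
  rw [val]
  constructor
  · rintro (⟨p, hp, h1⟩ | ⟨T, h1, h2⟩)
    · rw [h] at h1; cases h1
    · intro x hx
      exact h2 ⟨x, by rw [h]; exact hx⟩
  · intro h1
    refine Or.inr ⟨S, h, ?_⟩
    rintro ⟨x, hx⟩
    rw [h] at hx
    exact h1 x hx

theorem val_img {C : Circuit P H} {σ : Perm P} {τ : Perm H} (α : Finset (P × H)) :
    ∀ (m : ℕ) {a b : C.N}, C.rank a ≤ m → C.Img σ τ a b → (val C (mv σ τ α) b ↔ val C α a) := by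
  intro m
  induction m using Nat.strong_induction_on with
  | _ m ih =>
    intro a b hm h
    rcases h.gate with ⟨i, j, h1, h2⟩ | ⟨S, T, h1, h2, h3, h4⟩
    · rw [val_var h1, val_var h2, mem_mv]
      simp
    · rw [val_and h1, val_and h2]
      have key : ∀ x ∈ S, ∀ y : Lit C.N, y.pos = x.pos → C.Img σ τ x.node y.node →
          ((sup C b y.node ⊆ dm (mv σ τ α) → (val C (mv σ τ α) y.node ↔ y.pos = true)) ↔
          (sup C a x.node ⊆ dm α → (val C α x.node ↔ x.pos = true))) := by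
        intro x hx y h5 h6
        have h7 := C.rank_lt a x (by rw [h1]; exact hx)
        rw [ih _ (lt_of_lt_of_le h7 hm) le_rfl h6, sup_img h h6, dm_mv, h5,
          Finset.image_subset_image_iff (pr σ τ).injective]
      constructor
      · intro h5 x hx
        obtain ⟨y, hy, e1, e2⟩ := h3 x hx
        exact (key x hx y e1 e2).1 (h5 y hy)
      · intro h5 y hy
        obtain ⟨x, hx, e1, e2⟩ := h4 y hy
        exact (key x hx y e1.symm e2).2 (h5 x hx)

theorem Circuit.Img.val {C : Circuit P H} {σ : Perm P} {τ : Perm H} {a b : C.N}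
    (h : C.Img σ τ a b) (α : Finset (P × H)) : YL.val C (mv σ τ α) b ↔ YL.val C α a :=
  val_img α _ le_rfl h

theorem val_congr {C : Circuit P H} {a b : C.N} (h : C.gate a = C.gate b)
    (α : Finset (P × H)) : YL.val C α b ↔ YL.val C α a := by
  have h1 := (Circuit.Img.of_gate h).val α
  have h2 : mv (1 : Perm P) (1 : Perm H) α = α := by
    ext p; rw [mem_mv]; simp
  rwa [h2] at h1

end Pool.Agent.H63.YL
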