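import Pool.Agent.H63.YL.Ext
import Pool.Agent.H63.YL.Val

/-!
# Evaluations by small matchings refute refutations

`Ev D B f s M R`: `R α a v` says that the node `a` of the circuit `D` has the value `v` at the
matching `α` (which contains the fixed matching `f`). Nodes in `B` are decided by at most `s` more
pairs as long as there are at most `M` pairs.
-/

set_option autoImplicit false
set_option linter.unusedSectionVars false

namespace Pool.Agent.H63.YL

open Equiv

variable {P H : Type} [DecidableEq P] [DecidableEq H]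

/-- evaluation of the nodes in `B` by matchings with at most `M` pairs -/
structure Ev (D : Circuit P H) (B : Set D.N) (f : Finset (P × H)) (s M : ℕ)
    (R : Finset (P × H) → D.N → Bool → Prop) : Prop where
  closed : ∀ a ∈ B, ∀ x ∈ (D.gate a).children, x.node ∈ B
  pmf : PM f
  mono : ∀ {α β a v}, a ∈ B → R α a v → α ⊆ β → PM β → R β a v
  decide : ∀ {α a}, a ∈ B → PM α → f ⊆ α → α.card + s ≤ M →
    ∃ β v, α ⊆ β ∧ PM β ∧ β.card ≤ α.card + s ∧ R β a v
  cert : ∀ {α a v}, a ∈ B → R α a v → ∃ β, β ⊆ α ∧ f ⊆ β ∧ β.card ≤ f.card + s ∧ R β a v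
  pm : ∀ {α a v}, R α a v → PM α ∧ f ⊆ α
  cons : ∀ {α a}, R α a true → R α a false → False
  var_true : ∀ {α a i j}, a ∈ B → D.gate a = .var i j → R α a true → (i, j) ∈ α
  var_false : ∀ {α a i j}, a ∈ B → D.gate a = .var i j → R α a false → (i, j) ∉ α
  and_true : ∀ {α a S x v}, a ∈ B → D.gate a = .and S → x ∈ S → R α a true → R α x.node v →
    α.card + s ≤ M → v = x.pos
  and_false : ∀ {α a S}, a ∈ B → D.gate a = .and S → R α a false → α.card + s ≤ M →
    ∃ x ∈ S, ∃ β, α ⊆ β ∧ PM β ∧ β.card ≤ α.card + s ∧ R β x.node (!x.pos)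
  ext : ∀ {α} (x : P ⊕ H), PM α → f ⊆ α → α.card + 1 ≤ M →
    ∃ β, α ⊆ β ∧ PM β ∧ β.card ≤ α.card + 1 ∧ x ∈ dm β
  room : f.card + 8 * s + 8 ≤ M

section

variable {D : Circuit P H} {B : Set D.N} {f : Finset (P × H)} {s M : ℕ}
  {R : Finset (P × H) → D.N → Bool → Prop}

/-- nodes with the same label have the same value -/
theorem Ev.ident (E : Ev D B f s M R) {a b : D.N} (ha : a ∈ B) (hb : b ∈ B)
    (hab : D.gate a = D.gate b) {α : Finset (P × H)} (h1 : R α a true) (h2 : R α b false)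
    (hM : α.card + 2 * s ≤ M) : False := by
  rcases hg : D.gate a with ⟨i, j⟩ | S
  · exact E.var_false hb (hab ▸ hg) h2 (E.var_true ha hg h1)
  · obtain ⟨x, hx, β, h3, h4, h5, h6⟩ := E.and_false hb (hab ▸ hg) h2 (by omega)
    have h7 := E.and_true ha hg hx (E.mono ha h1 h3 h4) h6 (by omega)
    simp at h7

end

section

variable {R : Refutation P H} {B : Set R.ext.N} {f : Finset (P × H)} {s M : ℕ}
  {V : Finset (P × H) → R.ext.N → Bool → Prop}

private theorem line_true (E : Ev R.ext B f s M V) {Λ : R.lines}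
    (hΛ : (Sum.inr Λ : R.ext.N) ∈ B) {α : Finset (P × H)} (h : V α (Sum.inr Λ : R.ext.N) true)
    {x : Lit R.C.N} (hx : x ∈ Λ.1) {v : Bool} (hv : V α (Sum.inl x.node : R.ext.N) v)
    (hM : α.card + s ≤ M) : v = !x.pos :=
  E.and_true hΛ (ext_gate_inr R Λ) ⟨x, hx, rfl⟩ h hv hM

private theorem mem_of_line (E : Ev R.ext B f s M V) {Λ : R.lines}
    (hΛ : (Sum.inr Λ : R.ext.N) ∈ B) {x : Lit R.C.N} (hx : x ∈ Λ.1) :
    (Sum.inl x.node : R.ext.N) ∈ B := by
  refine E.closed _ hΛ ⟨Sum.inl x.node, !x.pos⟩ ?_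
  rw [ext_gate_inr]
  exact ⟨x, hx, rfl⟩

/-- a false line with a small certificate -/
private def FalseAt (V : Finset (P × H) → R.ext.N → Bool → Prop) (f : Finset (P × H)) (s : ℕ)
    (Λ : R.lines) : Prop :=
  ∃ α, α.card ≤ f.card + s ∧ V α (Sum.inr Λ : R.ext.N) true

private theorem falseAt_of (E : Ev R.ext B f s M V) {Λ : R.lines}
    (hΛ : (Sum.inr Λ : R.ext.N) ∈ B) {α : Finset (P × H)} (hα : PM α) (hf : f ⊆ α)
    (hM : α.card + 3 * s ≤ M)
    (h : ∀ x ∈ Λ.1, ∀ β, α ⊆ β → PM β → β.card ≤ α.card + 2 * s →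
      ¬ V β (Sum.inl x.node : R.ext.N) x.pos) : FalseAt V f s Λ := by
  obtain ⟨β, v, h1, h2, h3, h4⟩ := E.decide hΛ hα hf (by omega)
  rcases v with _ | _
  · exfalso
    obtain ⟨y, hy, γ, h5, h6, h7, h8⟩ := E.and_false hΛ (ext_gate_inr R Λ) h4 (by omega)
    obtain ⟨x, hx, rfl⟩ := hy
    simp only [Bool.not_not] at h8
    exact h x hx γ (h1.trans h5) h6 (by omega) h8
  · obtain ⟨γ, h5, h6, h7, h8⟩ := E.cert hΛ h4
    exact ⟨γ, h7, h8⟩

/-- **Soundness**: there is no refutation with an evaluation. -/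
theorem Ev.false (E : Ev R.ext B f s M V) (hB : ∀ Λ : R.lines, (Sum.inr Λ : R.ext.N) ∈ B) :
    False := by
  have hroom := E.room
  -- members of false lines are false
  have mem_false : ∀ {Λ : R.lines} {α : Finset (P × H)}, V α (Sum.inr Λ : R.ext.N) true →
      ∀ x ∈ Λ.1, ∀ β, α ⊆ β → PM β → β.card + s ≤ M →
      ¬ V β (Sum.inl x.node : R.ext.N) x.pos := by
    intro Λ α h x hx β h1 h2 h3 h4
    have h5 := line_true E (hB Λ) (E.mono (hB Λ) h h1 h2) hx h4 h3
    cases hp : x.pos <;> rw [hp] at h5 <;> simp at h5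
  have decide_mem : ∀ {Λ : R.lines} {α : Finset (P × H)}, V α (Sum.inr Λ : R.ext.N) true →
      ∀ x ∈ Λ.1, ∀ β, α ⊆ β → PM β → β.card + 2 * s ≤ M →
      ∃ γ, β ⊆ γ ∧ PM γ ∧ γ.card ≤ β.card + s ∧ V γ (Sum.inl x.node : R.ext.N) (!x.pos) := by
    intro Λ α h x hx β h1 h2 h3
    have hf := (E.pm h).2
    obtain ⟨γ, v, h4, h5, h6, h7⟩ := E.decide (mem_of_line E (hB Λ) hx) h2 (hf.trans h1) (by omega)
    refine ⟨γ, h4, h5, h6, ?_⟩
    have h8 := mem_false h x hx γ (h1.trans h4) h5 (by omega)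
    by_cases h9 : v = x.pos
    · rw [h9] at h7; exact absurd h7 h8
    · have h10 : v = !x.pos := by
        cases v <;> cases hp : x.pos <;> simp_all
      rw [← h10]; exact h7
  -- no line is false
  have key : ∀ (m : ℕ) (Λ : R.lines), R.order Λ.1 ≤ m → ¬ FalseAt V f s Λ := by
    intro m
    induction m using Nat.strong_induction_on with
    | _ m ih =>
      rintro Λ hm ⟨α, hcard, hα⟩
      obtain ⟨hpm, hf⟩ := E.pm hα
      have hle : ∀ Δ : R.lines, R.order Δ.1 < R.order Λ.1 → ¬ FalseAt V f s Δ :=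
        fun Δ h => ih _ (lt_of_lt_of_le h hm) Δ le_rfl
      cases R.step Λ.1 Λ.2 with
      | pigeon i h =>
        obtain ⟨β, h1, h2, h3, h4⟩ := E.ext (Sum.inl i) hpm hf (by omega)
        obtain ⟨j, hj⟩ := inl_mem_dm.1 h4
        obtain ⟨a, ha, haΛ⟩ := h j
        obtain ⟨γ, h5, h6, h7, h8⟩ := decide_mem hα _ haΛ β h1 h2 (by omega)
        refine E.var_false (mem_of_line E (hB Λ) haΛ) (i := i) (j := j) ?_ h8 (h5 hj)
        show (R.C.gate a).map Sum.inl = _
        rw [ha]; rfl
      | hole j h =>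
        obtain ⟨β, h1, h2, h3, h4⟩ := E.ext (Sum.inr j) hpm hf (by omega)
        obtain ⟨i, hi⟩ := inr_mem_dm.1 h4
        obtain ⟨a, ha, haΛ⟩ := h i
        obtain ⟨γ, h5, h6, h7, h8⟩ := decide_mem hα _ haΛ β h1 h2 (by omega)
        refine E.var_false (mem_of_line E (hB Λ) haΛ) (i := i) (j := j) ?_ h8 (h5 hi)
        show (R.C.gate a).map Sum.inl = _
        rw [ha]; rfl
      | @oneHole i j j' a b hne ha hb haΛ hbΛ =>
        obtain ⟨β, h1, h2, h3, h4⟩ := decide_mem hα _ haΛ α subset_rfl hpm (by omega)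
        obtain ⟨γ, h5, h6, h7, h8⟩ := decide_mem hα _ hbΛ β h1 h2 (by omega)
        have h9 := E.var_true (mem_of_line E (hB Λ) haΛ) (i := i) (j := j)
          (show (R.C.gate a).map Sum.inl = _ by rw [ha]; rfl) h4
        have h10 := E.var_true (mem_of_line E (hB Λ) hbΛ) (i := i) (j := j')
          (show (R.C.gate b).map Sum.inl = _ by rw [hb]; rfl) h8
        exact hne ((h6 _ (h5 h9) _ h10).1 rfl)
      | @onePigeon i i' j a b hne ha hb haΛ hbΛ =>
        obtain ⟨β, h1, h2, h3, h4⟩ := decide_mem hα _ haΛ α subset_rfl hpm (by omega)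
        obtain ⟨γ, h5, h6, h7, h8⟩ := decide_mem hα _ hbΛ β h1 h2 (by omega)
        have h9 := E.var_true (mem_of_line E (hB Λ) haΛ) (i := i) (j := j)
          (show (R.C.gate a).map Sum.inl = _ by rw [ha]; rfl) h4
        have h10 := E.var_true (mem_of_line E (hB Λ) hbΛ) (i := i') (j := j)
          (show (R.C.gate b).map Sum.inl = _ by rw [hb]; rfl) h8
        exact hne ((h6 _ (h5 h9) _ h10).2 rfl)
      | @ident a b hab haΛ hbΛ =>
        obtain ⟨β, h1, h2, h3, h4⟩ := decide_mem hα _ haΛ α subset_rfl hpm (by omega)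
        obtain ⟨γ, h5, h6, h7, h8⟩ := decide_mem hα _ hbΛ β h1 h2 (by omega)
        refine E.ident (mem_of_line E (hB Λ) hbΛ) (mem_of_line E (hB Λ) haΛ) ?_ h8
          (E.mono (mem_of_line E (hB Λ) haΛ) h4 h5 h6) (by omega)
        show (R.C.gate b).map Sum.inl = (R.C.gate a).map Sum.inl
        rw [hab]
      | @weak Δ hΔ hsub =>
        refine hle ⟨Δ, hΔ.1⟩ hΔ.2 (falseAt_of E (hB _) hpm hf (by omega) ?_)
        intro x hx β h1 h2 h3
        exact mem_false hα x (hsub hx) β h1 h2 (by omega)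
      | @cut a h1 h2 =>
        -- decide `a`
        have haB : (Sum.inl a : R.ext.N) ∈ B :=
          mem_of_line E (hB ⟨_, h1.1⟩) (x := ⟨a, true⟩) (Set.mem_insert _ _)
        obtain ⟨β, v, h3, h4, h5, h6⟩ := E.decide haB hpm hf (by omega)
        rcases v with _ | _
        · refine hle ⟨_, h1.1⟩ h1.2 (falseAt_of E (hB _) h4 (hf.trans h3) (by omega) ?_)
          intro x hx γ h7 h8 h9 h10
          rcases hx with rfl | hx
          · exact E.cons h10 (E.mono haB h6 h7 h8)
          · exact mem_false hα x hx γ (h3.trans h7) h8 (by omega) h10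
        · refine hle ⟨_, h2.1⟩ h2.2 (falseAt_of E (hB _) h4 (hf.trans h3) (by omega) ?_)
          intro x hx γ h7 h8 h9 h10
          rcases hx with rfl | hx
          · exact E.cons (E.mono haB h6 h7 h8) h10
          · exact mem_false hα x hx γ (h3.trans h7) h8 (by omega) h10
      | @andI S a hg haΛ h =>
        obtain ⟨β, h1, h2, h3, h4⟩ := decide_mem hα _ haΛ α subset_rfl hpm (by omega)
        have haB := mem_of_line E (hB Λ) haΛ
        have hg' : R.ext.gate (Sum.inl a) = .and (Lit.map Sum.inl '' S) := by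
          show (R.C.gate a).map Sum.inl = _
          rw [hg]; rfl
        obtain ⟨y, hy, γ, h5, h6, h7, h8⟩ := E.and_false haB hg' h4 (by omega)
        obtain ⟨x, hx, rfl⟩ := hy
        have hins := h x hx
        refine hle ⟨_, hins.1⟩ hins.2 (falseAt_of E (hB _) h6 (hf.trans (h1.trans h5))
          (by omega) ?_)
        intro z hz δ h9 h10 h11 h12
        have hxB : (Sum.inl x.node : R.ext.N) ∈ B :=
          mem_of_line E (hB ⟨_, hins.1⟩) (x := x) (Set.mem_insert _ _)
        rcases hz with rfl | hz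
        · have h13 := E.mono hxB h8 h9 h10
          simp only [Lit.map] at h13
          cases hp : z.pos <;> rw [hp] at h12 h13
          · exact E.cons h13 h12
          · exact E.cons h12 h13
        · exact mem_false hα z hz δ (h1.trans (h5.trans h9)) h10 (by omega) h12
      | @andE S a hg haΛ h =>
        obtain ⟨β, h1, h2, h3, h4⟩ := decide_mem hα _ haΛ α subset_rfl hpm (by omega)
        have haB := mem_of_line E (hB Λ) haΛ
        have hg' : R.ext.gate (Sum.inl a) = .and (Lit.map Sum.inl '' S) := by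
          show (R.C.gate a).map Sum.inl = _
          rw [hg]; rfl
        refine hle ⟨_, h.1⟩ h.2 (falseAt_of E (hB _) h2 (hf.trans h1) (by omega) ?_)
        intro z hz δ h5 h6 h7 h8
        rcases hz with hz | ⟨w, hw, rfl⟩
        · exact mem_false hα z hz δ (h1.trans h5) h6 (by omega) h8
        · have h9 := E.and_true haB hg' (x := Lit.map Sum.inl w) ⟨w, hw, rfl⟩
            (E.mono haB h4 h5 h6) h8 (by omega)
          simp [Lit.neg, Lit.map] at h9
  -- the empty line is false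
  refine key _ ⟨∅, R.empty_mem⟩ le_rfl (falseAt_of E (hB _) E.pmf subset_rfl (by omega) ?_)
  intro x hx
  exact absurd hx (Set.notMem_empty x)

end

end Pool.Agent.H63.YL
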