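import Pool.Agent.H63.YL.Inv
import Pool.Agent.H63.YL.Sound

/-!
# The evaluation given by a rich matching
-/

set_option autoImplicit false
set_option linter.unusedSectionVars false

namespace Pool.Agent.H63.YL

open Equiv

variable {P H : Type} [Fintype P] [DecidableEq P] [Fintype H] [DecidableEq H]

theorem insert_pm {α : Finset (P × H)} (h : PM α) {i : P} {j : H} (hi : Sum.inl i ∉ dm α)
    (hj : Sum.inr j ∉ dm α) : PM (insert (i, j) α) := by
  intro p hp q hq
  rw [Finset.mem_insert] at hp hq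
  rcases hp with rfl | hp <;> rcases hq with rfl | hq
  · simp
  · simp only
    constructor
    · intro e; exact absurd (mem_dm.2 ⟨q, hq, Or.inl (by rw [← e])⟩) hi
    · intro e; exact absurd (mem_dm.2 ⟨q, hq, Or.inr (by rw [← e])⟩) hj
  · simp only
    constructor
    · intro e; exact absurd (mem_dm.2 ⟨p, hp, Or.inl (by rw [e])⟩) hi
    · intro e; exact absurd (mem_dm.2 ⟨p, hp, Or.inr (by rw [e])⟩) hj
  · exact h p hp q hq

/-- a point can be matched if there is room -/
theorem ext_one {α : Finset (P × H)} (h : PM α) (hPH : Fintype.card H ≤ Fintype.card P)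
    (hM : α.card + 1 ≤ Fintype.card H) (x : P ⊕ H) :
    ∃ β, α ⊆ β ∧ PM β ∧ β.card ≤ α.card + 1 ∧ x ∈ dm β := by
  by_cases hx : x ∈ dm α
  · exact ⟨α, subset_rfl, h, by omega, hx⟩
  · rcases x with i | j
    · obtain ⟨j, -, hj⟩ : ∃ j ∈ (Finset.univ : Finset H), j ∉ α.image Prod.snd := by
        apply Finset.exists_mem_notMem_of_card_lt_card
        have := Finset.card_image_le (s := α) (f := Prod.snd)
        rw [Finset.card_univ]; omega
      refine ⟨insert (i, j) α, Finset.subset_insert _ _, insert_pm h hx ?_,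
        Finset.card_insert_le _ _, mem_dm.2 ⟨(i, j), Finset.mem_insert_self _ _, Or.inl rfl⟩⟩
      intro h1
      obtain ⟨i', h2⟩ := inr_mem_dm.1 h1
      exact hj (Finset.mem_image.2 ⟨_, h2, rfl⟩)
    · obtain ⟨i, -, hi⟩ : ∃ i ∈ (Finset.univ : Finset P), i ∉ α.image Prod.fst := by
        apply Finset.exists_mem_notMem_of_card_lt_card
        have := Finset.card_image_le (s := α) (f := Prod.fst)
        rw [Finset.card_univ]; omega
      refine ⟨insert (i, j) α, Finset.subset_insert _ _, insert_pm h ?_ hx,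
        Finset.card_insert_le _ _, mem_dm.2 ⟨(i, j), Finset.mem_insert_self _ _, Or.inr rfl⟩⟩
      intro h1
      obtain ⟨j', h2⟩ := inl_mem_dm.1 h1
      exact hi (Finset.mem_image.2 ⟨_, h2, rfl⟩)

theorem ext_many (hPH : Fintype.card H ≤ Fintype.card P) (X : Finset (P ⊕ H)) :
    ∀ {α : Finset (P × H)}, PM α → α.card + X.card ≤ Fintype.card H →
    ∃ β, α ⊆ β ∧ PM β ∧ β.card ≤ α.card + X.card ∧ X ⊆ dm β := by
  induction X using Finset.induction_on with
  | empty => intro α h _; exact ⟨α, subset_rfl, h, by simp, by simp⟩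
  | insert x X hx ih =>
    intro α h hM
    rw [Finset.card_insert_of_notMem hx] at hM ⊢
    obtain ⟨β, h1, h2, h3, h4⟩ := ih h (by omega)
    obtain ⟨γ, h5, h6, h7, h8⟩ := ext_one h2 hPH (by omega) x
    refine ⟨γ, h1.trans h5, h6, by omega, ?_⟩
    intro y hy
    rcases Finset.mem_insert.1 hy with rfl | hy
    · exact h8
    · exact dm_mono h5 (h4 hy)

theorem inter_dm {α β : Finset (P × H)} (h : α ⊆ β) : α ∩ β = α := Finset.inter_eq_left.2 h

/-- the evaluation given by a matching which is rich for all nodes in `B` -/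
theorem ev_pure {D : Circuit P H} {B : Set D.N} {f : Finset (P × H)} {s T K : ℕ}
    (closed : ∀ a ∈ B, ∀ x ∈ (D.gate a).children, x.node ∈ B)
    (hT : 2 * Nat.card D.N < 2 ^ T) (hK : 12 * T ≤ K) (hf : PM f)
    (hr : ∀ a ∈ B, Rich D a K (12 * T + 4) f) (hsm : ∀ a ∈ B, (small D K a).card ≤ s)
    (hsp : ∀ a ∈ B, ∀ y, Below D a y → (sup D a y).card ≤ s)
    (hPH : Fintype.card H ≤ Fintype.card P) (room : f.card + 8 * s + 8 ≤ Fintype.card H) :
    Ev D B f s (Fintype.card H)
      (fun α a v => PM α ∧ f ⊆ α ∧ small D K a ⊆ dm α ∧ (val D α a ↔ v = true)) := by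
  -- the value of a node at larger matchings
  have hmono : ∀ {a : D.N}, a ∈ B → ∀ {α β : Finset (P × H)}, f ⊆ α → α ⊆ β → PM β →
      small D K a ⊆ dm α → (val D α a ↔ val D β a) := by
    intro a ha α β h1 h2 h3 h4
    refine inv hT hK Below.refl (h3.mono h2) h3 ((hr a ha).mono h1) ((hr a ha).mono (h1.trans h2))
      ?_ ?_
    · rw [inter_dm h2]; exact h4
    · rw [sup_self]; exact Finset.empty_subset _
  have hK2 : 2 ≤ K ∨ B = ∅ := by
    rcases B.eq_empty_or_nonempty with h | ⟨a, ha⟩
    · exact Or.inr h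
    · left
      rcases Nat.eq_zero_or_pos T with h | h
      · subst h
        have : Nonempty D.N := ⟨a⟩
        have := Nat.card_pos (α := D.N)
        simp at hT; omega
      · omega
  have hvar : ∀ {a : D.N} {i j}, a ∈ B → D.gate a = .var i j → Sum.inl i ∈ small D K a ∧
      Sum.inr j ∈ small D K a := by
    intro a i j ha hg
    have hK3 : 2 ≤ K := by
      rcases hK2 with h | h
      · exact h
      · rw [h] at ha; exact absurd ha (Set.notMem_empty _)
    rw [mem_small, mem_small, cl_var_inl hg, cl_var_inr hg, Finset.card_singleton,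
      Finset.card_singleton]
    omega
  refine ⟨closed, hf, ?_, ?_, ?_, ?_, ?_, ?_, ?_, ?_, ?_, ?_, room⟩
  · rintro α β a v ha ⟨h1, h2, h3, h4⟩ h5 h6
    exact ⟨h6, h2.trans h5, h3.trans (dm_mono h5), (hmono ha h2 h5 h6 h3).symm.trans h4⟩
  · intro α a ha h1 h2 h3
    obtain ⟨β, h4, h5, h6, h7⟩ := ext_many hPH (small D K a) h1 (by have := hsm a ha; omega)
    by_cases h8 : val D β a
    · exact ⟨β, true, h4, h5, by have := hsm a ha; omega, h5, h2.trans h4, h7, by simp [h8]⟩
    · exact ⟨β, false, h4, h5, by have := hsm a ha; omega, h5, h2.trans h4, h7, by simp [h8]⟩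
  · rintro α a v ha ⟨h1, h2, h3, h4⟩
    classical
    -- one pair for every point
    have h5 : ∀ x : {x // x ∈ small D K a}, ∃ p, p ∈ α ∧ Touch p x.1 := fun x =>
      mem_dm.1 (h3 x.2)
    choose φ hφ using h5
    set β : Finset (P × H) := f ∪ (small D K a).attach.image φ with hβ
    have h6 : β ⊆ α := by
      rw [hβ]
      refine Finset.union_subset h2 ?_
      intro p hp
      obtain ⟨x, -, rfl⟩ := Finset.mem_image.1 hp
      exact (hφ x).1
    have h7 : small D K a ⊆ dm β := by
      intro x hx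
      refine mem_dm.2 ⟨φ ⟨x, hx⟩, ?_, (hφ ⟨x, hx⟩).2⟩
      exact Finset.mem_union_right _ (Finset.mem_image_of_mem _ (Finset.mem_attach _ _))
    have h8 : f ⊆ β := Finset.subset_union_left
    refine ⟨β, h6, h8, ?_, h1.mono h6, h8, h7, (hmono ha h8 h6 h1 h7).trans h4⟩
    refine (Finset.card_union_le _ _).trans ?_
    have h9 := Finset.card_image_le (s := (small D K a).attach) (f := φ)
    rw [Finset.card_attach] at h9
    have := hsm a ha
    omega
  · rintro α a v ⟨h1, h2, -⟩; exact ⟨h1, h2⟩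
  · rintro α a ⟨-, -, -, h1⟩ ⟨-, -, -, h2⟩
    simp only [iff_true] at h1
    simp only [Bool.false_eq_true, iff_false] at h2
    exact h2 h1
  · rintro α a i j ha hg ⟨-, -, -, h1⟩
    rw [val_var hg] at h1
    simpa using h1
  · rintro α a i j ha hg ⟨-, -, -, h1⟩
    rw [val_var hg] at h1
    simpa using h1
  · rintro α a S x v ha hg hx ⟨h1, h2, h3, h4⟩ ⟨-, -, h5, h6⟩ hM
    have hxc : x ∈ (D.gate a).children := by rw [hg]; exact hx
    have hbel : Below D a x.node := Below.refl.child hxc
    have h7 := hsp a ha x.node hbel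
    obtain ⟨β, h8, h9, h10, h11⟩ := ext_many hPH (sup D a x.node) h1 (by omega)
    have h12 : val D β a := (hmono ha h2 h8 h9 h3).1 (by rw [h4])
    have h13 := (val_and hg).1 h12 x hx h11
    have h14 := hmono (closed a ha x hxc) h2 h8 h9 h5
    rw [← h14, h6] at h13
    cases v <;> cases hp : x.pos <;> simp_all
  · rintro α a S ha hg ⟨h1, h2, h3, h4⟩ hM
    have h5 : ¬ val D α a := by simpa using h4
    rw [val_and hg] at h5
    push Not at h5
    obtain ⟨x, hx, h6, h7⟩ := h5
    have hxc : x ∈ (D.gate a).children := by rw [hg]; exact hx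
    have hbel : Below D a x.node := Below.refl.child hxc
    have h8 := hsm _ (closed a ha x hxc)
    obtain ⟨β, h9, h10, h11, h12⟩ := ext_many hPH (small D K x.node) h1 (by omega)
    refine ⟨x, hx, β, h9, h10, by omega, h10, h2.trans h9, h12, ?_⟩
    have h13 : val D α x.node ↔ val D β x.node := by
      refine inv hT hK hbel h1 h10 ((hr a ha).mono h2) ((hr a ha).mono (h2.trans h9)) ?_ ?_
      · rw [inter_dm h9]; exact h3
      · rw [inter_dm h9]; exact h6
    rw [← h13]
    have h14 : ¬ (val D α x.node ↔ x.pos = true) := by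
      rcases h7 with ⟨e1, e2⟩ | ⟨e1, e2⟩
      · intro e; exact e2 (e.1 e1)
      · intro e; exact e1 (e.2 e2)
    cases hp : x.pos <;> rw [hp] at h14 <;> simp at h14 ⊢ <;> exact h14
  · intro α x h1 h2 h3
    exact ext_one h1 hPH h3 x

end Pool.Agent.H63.YL
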