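import Mathlib

/-!
# Refutations of the pigeonhole principle whose lines are symmetric under Young subgroups

Propositional formulas are given by the nodes of a finite circuit (subformulas are shared) with
conjunctions of unbounded fan-in; negation is a sign. The propositional variables are the atomic
statements 'pigeon `i` sits in hole `j`'. The pigeons are the elements of `P`, the holes are the
elements of `H`. Neither the circuit nor the set of the lines has to be symmetric.
-/

set_option autoImplicit false

namespace Pool.Agent.H63.YL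

/-- A signed node: the node itself (`pos = true`) or its negation (`pos = false`). -/
@[ext] structure Lit (N : Type) where
  /-- the node -/
  node : N
  /-- the sign -/
  pos : Bool

/-- The negation of a signed node. -/
def Lit.neg {N : Type} (x : Lit N) : Lit N := ⟨x.node, !x.pos⟩

/-- The label of a node: the variable 'pigeon `i` sits in hole `j`' or a conjunction of a set of
signed nodes. -/
inductive Gate (P H N : Type) : Type
  | var (i : P) (j : H)
  | and (S : Set (Lit N))

/-- The signed nodes that enter a gate. -/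
def Gate.children {P H N : Type} : Gate P H N → Set (Lit N)
  | .var _ _ => ∅
  | .and S => S

/-- A finite acyclic circuit. -/
structure Circuit (P H : Type) where
  /-- the nodes -/
  N : Type
  [fin : Finite N]
  /-- the label of a node -/
  gate : N → Gate P H N
  /-- the level of a node -/
  rank : N → ℕ
  rank_lt : ∀ a, ∀ x ∈ (gate a).children, rank x.node < rank a

attribute [instance] Circuit.fin

/-- The rules. A line is a set `Λ` of signed nodes, read as the disjunction of its members; it
follows in one step from the lines in `Q`. The hypotheses say that every pigeon sits in some hole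
and in at most one, that every hole contains some pigeon and at most one. -/
inductive Step {P H : Type} (C : Circuit P H) (Q : Set (Set (Lit C.N))) : Set (Lit C.N) → Prop
  | pigeon {Λ : Set (Lit C.N)} (i : P) : (∀ j, ∃ a, C.gate a = .var i j ∧ ⟨a, true⟩ ∈ Λ) →
      Step C Q Λ
  | hole {Λ : Set (Lit C.N)} (j : H) : (∀ i, ∃ a, C.gate a = .var i j ∧ ⟨a, true⟩ ∈ Λ) →
      Step C Q Λ
  | oneHole {Λ : Set (Lit C.N)} {i : P} {j j' : H} {a b : C.N} : j ≠ j' →
      C.gate a = .var i j → C.gate b = .var i j' → ⟨a, false⟩ ∈ Λ → ⟨b, false⟩ ∈ Λ → Step C Q Λ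
  | onePigeon {Λ : Set (Lit C.N)} {i i' : P} {j : H} {a b : C.N} : i ≠ i' →
      C.gate a = .var i j → C.gate b = .var i' j → ⟨a, false⟩ ∈ Λ → ⟨b, false⟩ ∈ Λ → Step C Q Λ
  | ident {Λ : Set (Lit C.N)} {a b : C.N} : C.gate a = C.gate b → ⟨a, true⟩ ∈ Λ →
      ⟨b, false⟩ ∈ Λ → Step C Q Λ
  | weak {Λ Δ : Set (Lit C.N)} : Δ ∈ Q → Δ ⊆ Λ → Step C Q Λ
  | cut {Λ : Set (Lit C.N)} {a : C.N} : insert ⟨a, true⟩ Λ ∈ Q → insert ⟨a, false⟩ Λ ∈ Q →
      Step C Q Λ
  | andI {Λ S : Set (Lit C.N)} {a : C.N} : C.gate a = .and S → ⟨a, true⟩ ∈ Λ →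
      (∀ x ∈ S, insert x Λ ∈ Q) → Step C Q Λ
  | andE {Λ S : Set (Lit C.N)} {a : C.N} : C.gate a = .and S → ⟨a, false⟩ ∈ Λ →
      Λ ∪ Lit.neg '' S ∈ Q → Step C Q Λ

/-- A refutation of the onto functional pigeonhole principle: a circuit and a set of lines, each of
which follows in one step from earlier ones; the empty line is among them. -/
structure Refutation (P H : Type) where
  /-- the circuit -/
  C : Circuit P H
  /-- the lines -/
  lines : Set (Set (Lit C.N))
  /-- the order of the lines -/
  order : Set (Lit C.N) → ℕ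
  step : ∀ Λ ∈ lines, Step C {Δ | Δ ∈ lines ∧ order Δ < order Λ} Λ
  empty_mem : ∅ ∈ lines

/-- The size of a refutation: the number of nodes of the circuit plus the number of lines. -/
noncomputable def Refutation.size {P H : Type} (R : Refutation P H) : ℕ :=
  Nat.card R.C.N + R.lines.ncard

/-- Related nodes `a`, `b` are labelled in the same way up to the renaming of the pigeons by `σ` and
of the holes by `τ` and up to the relation. -/
def Circuit.Sim {P H : Type} (C : Circuit P H) (σ : Equiv.Perm P) (τ : Equiv.Perm H)
    (r : C.N → C.N → Prop) : Prop :=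
  ∀ a b, r a b →
    (∃ i j, C.gate a = .var i j ∧ C.gate b = .var (σ i) (τ j)) ∨
    ∃ S T, C.gate a = .and S ∧ C.gate b = .and T ∧
      (∀ x ∈ S, ∃ y ∈ T, y.pos = x.pos ∧ r x.node y.node) ∧
      ∀ y ∈ T, ∃ x ∈ S, x.pos = y.pos ∧ r x.node y.node

/-- The formula at the node `b` is the formula at the node `a` with the pigeons renamed by `σ` and
the holes by `τ` (up to the order and repetition of conjuncts). -/
def Circuit.Img {P H : Type} (C : Circuit P H) (σ : Equiv.Perm P) (τ : Equiv.Perm H)
    (a b : C.N) : Prop := ∃ r, C.Sim σ τ r ∧ r a b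

/-- The same for sets of signed nodes. -/
def Circuit.ImgL {P H : Type} (C : Circuit P H) (σ : Equiv.Perm P) (τ : Equiv.Perm H)
    (Λ Δ : Set (Lit C.N)) : Prop :=
  (∀ x ∈ Λ, ∃ y ∈ Δ, y.pos = x.pos ∧ C.Img σ τ x.node y.node) ∧
    ∀ y ∈ Δ, ∃ x ∈ Λ, x.pos = y.pos ∧ C.Img σ τ x.node y.node

/-- The line `Λ` is invariant under all permutations which preserve the colours `u` of the pigeons
and the colours `v` of the holes. -/
def Circuit.Invariant {P H : Type} (C : Circuit P H) (u : P → ℕ) (v : H → ℕ)
    (Λ : Set (Lit C.N)) : Prop :=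
  ∀ (σ : Equiv.Perm P) (τ : Equiv.Perm H), (∀ i, u (σ i) = u i) → (∀ j, v (τ j) = v j) →
    C.ImgL σ τ Λ Λ

/-- The number of the points whose colour is shared by less than `L` points. -/
noncomputable def rare {P : Type} (u : P → ℕ) (L : ℕ) : ℕ :=
  {i : P | {i' : P | u i' = u i}.ncard < L}.ncard

/-- Some product of full symmetric groups of disjoint sets of pigeons and of disjoint sets of holes
leaves `Λ` invariant, and all but `r` points lie in such sets with at least `L` elements. -/
def Circuit.Homogeneous {P H : Type} (C : Circuit P H) (L r : ℕ) (Λ : Set (Lit C.N)) : Prop :=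
  ∃ (u : P → ℕ) (v : H → ℕ), C.Invariant u v Λ ∧ rare u L + rare v L ≤ r

end Pool.Agent.H63.YL
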