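import Pool.Agent.H63.YL.Img

/-!
# Classes of points and relative supports
-/

set_option autoImplicit false

namespace Pool.Agent.H63.YL

open Equiv Pool.Agent.H66.SF

variable {P H : Type} [Fintype P] [DecidableEq P] [Fintype H] [DecidableEq H]

/-- the class of the point `x` for the formula at `a` -/
noncomputable def cl (C : Circuit P H) (a : C.N) (x : P ⊕ H) : Finset (P ⊕ H) :=
  cls (st C a) Finset.univ x

/-- the points which are exceptional for `b` relative to `a` -/
noncomputable def sup (C : Circuit P H) (a b : C.N) : Finset (P ⊕ H) :=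
  open Classical in
  Finset.univ.filter fun x => ¬ (cl C a x).card < 2 * (cl C b x ∩ cl C a x).card

/-- the points in small classes -/
noncomputable def small (C : Circuit P H) (K : ℕ) (a : C.N) : Finset (P ⊕ H) :=
  open Classical in
  Finset.univ.filter fun x => (cl C a x).card < K

theorem mem_sup {C : Circuit P H} {a b : C.N} {x : P ⊕ H} :
    x ∈ sup C a b ↔ ¬ (cl C a x).card < 2 * (cl C b x ∩ cl C a x).card := by
  simp [sup]

theorem mem_small {C : Circuit P H} {K : ℕ} {a : C.N} {x : P ⊕ H} :
    x ∈ small C K a ↔ (cl C a x).card < K := by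
  simp [small]

theorem self_mem_cl (C : Circuit P H) (a : C.N) (x : P ⊕ H) : x ∈ cl C a x :=
  mem_cls.2 (Rel.refl _ _ _)

theorem cl_eq_of_mem {C : Circuit P H} {a : C.N} {x y : P ⊕ H} (h : y ∈ cl C a x) :
    cl C a y = cl C a x := (cls_eq (mem_cls.1 h)).symm

theorem mem_cl_comm {C : Circuit P H} {a : C.N} {x y : P ⊕ H} : y ∈ cl C a x ↔ x ∈ cl C a y := by
  constructor
  · intro h; rw [cl_eq_of_mem h]; exact self_mem_cl C a x
  · intro h; rw [cl_eq_of_mem h]; exact self_mem_cl C a y

theorem cl_eq_of_inter {C : Circuit P H} {a : C.N} {x y z : P ⊕ H} (h : z ∈ cl C a x)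
    (h' : z ∈ cl C a y) : cl C a x = cl C a y :=
  (cl_eq_of_mem h).symm.trans (cl_eq_of_mem h')

theorem sup_self (C : Circuit P H) (a : C.N) : sup C a a = ∅ := by
  ext x
  rw [mem_sup, Finset.inter_self]
  have : 0 < (cl C a x).card := Finset.card_pos.2 ⟨x, self_mem_cl C a x⟩
  simp only [not_lt, Finset.notMem_empty, iff_false, not_le]
  omega

/-- a three-cycle on points of one class fixes the formula -/
theorem threeCycle_mem_st {C : Circuit P H} {a : C.N} {x : P ⊕ H} {g : Perm (P ⊕ H)}
    (hg : g.IsThreeCycle) (h : g.support ⊆ cl C a x) : g ∈ st C a := by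
  refine threeCycle_mem (Q := Finset.univ) (C := cl C a x) ?_ hg h
  intro y hy z hz
  exact (mem_cls.1 hy).symm.trans (mem_cls.1 hz)

theorem rel_img {C : Circuit P H} {a b : C.N} {σ : Perm P} {τ : Perm H} (h : C.Img σ τ a b)
    {x y : P ⊕ H} (hxy : Rel (st C a) Finset.univ x y) :
    Rel (st C b) Finset.univ (pr σ τ x) (pr σ τ y) := by
  rcases hxy with rfl | ⟨g, hg, hg3, -, hx, hy⟩
  · exact Or.inl rfl
  · exact Or.inr ⟨pr σ τ * g * (pr σ τ)⁻¹, conj_mem_st h hg, conj_threeCycle _ hg3,
      Finset.subset_univ _, mem_conj_support hx, mem_conj_support hy⟩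

theorem cl_img {C : Circuit P H} {a b : C.N} {σ : Perm P} {τ : Perm H} (h : C.Img σ τ a b)
    (x : P ⊕ H) : cl C b (pr σ τ x) = (cl C a x).image (pr σ τ) := by
  ext y
  rw [Finset.mem_image]
  constructor
  · intro hy
    refine ⟨(pr σ τ)⁻¹ y, ?_, by simp⟩
    have h1 := rel_img h.symm (mem_cls.1 hy)
    rw [← pr_inv] at h1
    refine mem_cls.2 ?_
    simpa using h1
  · rintro ⟨z, hz, rfl⟩
    exact mem_cls.2 (rel_img h (mem_cls.1 hz))

theorem card_cl_img {C : Circuit P H} {a b : C.N} {σ : Perm P} {τ : Perm H} (h : C.Img σ τ a b)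
    (x : P ⊕ H) : (cl C b (pr σ τ x)).card = (cl C a x).card := by
  rw [cl_img h, Finset.card_image_of_injective _ (pr σ τ).injective]

theorem sup_img {C : Circuit P H} {a a' b b' : C.N} {σ : Perm P} {τ : Perm H}
    (h : C.Img σ τ a a') (h' : C.Img σ τ b b') : sup C a' b' = (sup C a b).image (pr σ τ) := by
  have key : ∀ x, pr σ τ x ∈ sup C a' b' ↔ x ∈ sup C a b := by
    intro x
    rw [mem_sup, mem_sup, cl_img h, cl_img h', ← Finset.image_inter _ _ (pr σ τ).injective,
      Finset.card_image_of_injective _ (pr σ τ).injective,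
      Finset.card_image_of_injective _ (pr σ τ).injective]
  ext y
  rw [Finset.mem_image]
  constructor
  · intro hy
    refine ⟨(pr σ τ)⁻¹ y, (key _).1 (by simpa using hy), by simp⟩
  · rintro ⟨x, hx, rfl⟩
    exact (key x).2 hx

/-- the classes and supports do not depend on the node which represents a formula -/
theorem cl_congr {C : Circuit P H} {a b : C.N} (h : C.Img 1 1 a b) (x : P ⊕ H) :
    cl C b x = cl C a x := by
  have h1 := cl_img h x
  rw [pr_one] at h1
  simpa using h1

theorem sup_congr {C : Circuit P H} {a a' b b' : C.N} (h : C.Img 1 1 a a') (h' : C.Img 1 1 b b') :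
    sup C a' b' = sup C a b := by
  have h1 := sup_img h h'
  rw [pr_one] at h1
  simpa using h1

/-- two points outside `sup C a b` in the same class of `a` are in the same class of `b` -/
theorem cl_eq_of_notMem_sup {C : Circuit P H} {a b : C.N} {x y : P ⊕ H} (hxy : y ∈ cl C a x)
    (hx : x ∉ sup C a b) (hy : y ∉ sup C a b) : cl C b x = cl C b y := by
  rw [mem_sup, not_not] at hx hy
  rw [cl_eq_of_mem hxy] at hy
  by_contra hne
  have hd : Disjoint (cl C b x ∩ cl C a x) (cl C b y ∩ cl C a x) := by
    rw [Finset.disjoint_left]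
    intro z h1 h2
    exact hne (cl_eq_of_inter (Finset.mem_inter.1 h1).1 (Finset.mem_inter.1 h2).1)
  have h1 := Finset.card_le_card (Finset.union_subset
    (Finset.inter_subset_right (s₁ := cl C b x) (s₂ := cl C a x))
    (Finset.inter_subset_right (s₁ := cl C b y) (s₂ := cl C a x)))
  rw [Finset.card_union_of_disjoint hd] at h1
  omega

/-- a class lies on one side -/
theorem cl_side {C : Circuit P H} {a : C.N} {x y : P ⊕ H} (h : y ∈ cl C a x) :
    x.isLeft = y.isLeft := by
  rcases mem_cls.1 h with rfl | ⟨g, ⟨σ, τ, rfl, -⟩, hg3, -, hx, hy⟩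
  · rfl
  · by_cases hxy : x = y
    · rw [hxy]
    · have key : ∀ (σ : Perm P) (τ : Perm H) (z : P ⊕ H), (pr σ τ z).isLeft = z.isLeft := by
        rintro σ τ (z | z) <;> rfl
      rcases threeCycle_apply hg3 hx hy hxy with e | e
      · rw [← e, key]
      · rw [← e, pr_inv, key]

end Pool.Agent.H63.YL
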