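import Pool.Agent.H63.YL.Cls

/-!
# Lines as nodes
-/

set_option autoImplicit false
set_option linter.unusedSectionVars false

namespace Pool.Agent.H63.YL

open Equiv

variable {P H : Type}

/-- renaming of the nodes -/
def Lit.map {N N' : Type} (g : N → N') (x : Lit N) : Lit N' := ⟨g x.node, x.pos⟩

/-- renaming of the nodes in a label -/
def Gate.map {N N' : Type} (g : N → N') : Gate P H N → Gate P H N'
  | .var i j => .var i j
  | .and S => .and (Lit.map g '' S)

theorem Lit.neg_neg {N : Type} (x : Lit N) : x.neg.neg = x := by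
  cases x; simp [Lit.neg]

instance {N : Type} [Finite N] : Finite (Lit N) :=
  Finite.of_injective (fun x : Lit N => (x.node, x.pos)) (by
    rintro ⟨a, b⟩ ⟨c, d⟩ h
    simp only [Prod.mk.injEq] at h
    rw [h.1, h.2])

instance (R : Refutation P H) : Finite R.lines := Subtype.finite

theorem exists_rank (C : Circuit P H) : ∃ m, ∀ a, C.rank a < m := by
  obtain ⟨m, hm⟩ := (Set.finite_range C.rank).bddAbove
  exact ⟨m + 1, fun a => Nat.lt_succ_of_le (hm ⟨a, rfl⟩)⟩

/-- the circuit of a refutation with one more node for every line: the conjunction of the negations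
of the members of the line -/
noncomputable def Refutation.ext (R : Refutation P H) : Circuit P H where
  N := R.C.N ⊕ R.lines
  gate := Sum.elim (fun a => (R.C.gate a).map Sum.inl)
    (fun Λ => .and ((fun x : Lit R.C.N => (⟨Sum.inl x.node, !x.pos⟩ : Lit (R.C.N ⊕ R.lines))) '' Λ.1))
  rank := Sum.elim R.C.rank (fun _ => (exists_rank R.C).choose)
  rank_lt := by
    have hm := (exists_rank R.C).choose_spec
    rintro (a | Λ) x hx
    · simp only [Sum.elim_inl] at hx ⊢
      rcases hg : R.C.gate a with ⟨i, j⟩ | S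
      · rw [hg] at hx; simp [Gate.map, Gate.children] at hx
      · rw [hg] at hx
        simp only [Gate.map, Gate.children, Set.mem_image] at hx
        obtain ⟨y, hy, rfl⟩ := hx
        simp only [Lit.map, Sum.elim_inl]
        exact R.C.rank_lt a y (by rw [hg]; exact hy)
    · simp only [Sum.elim_inr, Gate.children, Set.mem_image] at hx
      obtain ⟨y, hy, rfl⟩ := hx
      simp only [Sum.elim_inl, Sum.elim_inr]
      exact hm _

theorem ext_gate_inl (R : Refutation P H) (a : R.C.N) :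
    R.ext.gate (Sum.inl a) = (R.C.gate a).map Sum.inl := rfl

theorem ext_gate_inr (R : Refutation P H) (Λ : R.lines) :
    R.ext.gate (Sum.inr Λ) =
      .and ((fun x : Lit R.C.N => (⟨Sum.inl x.node, !x.pos⟩ : Lit (R.C.N ⊕ R.lines))) '' Λ.1) := rfl

/-- the node of a line -/
def Refutation.ln (R : Refutation P H) (Λ : R.lines) : R.ext.N := Sum.inr Λ

theorem card_ext (R : Refutation P H) : Nat.card R.ext.N = R.size := by
  show Nat.card (R.C.N ⊕ R.lines) = _
  rw [Nat.card_sum, Refutation.size]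
  rfl

/-- images in the circuit are images in the extended circuit -/
theorem img_ext (R : Refutation P H) {σ : Perm P} {τ : Perm H} {a b : R.C.N}
    (h : R.C.Img σ τ a b) : R.ext.Img σ τ (Sum.inl a) (Sum.inl b) := by
  obtain ⟨r, hr, hab⟩ := h
  refine ⟨fun x y => ∃ a b, x = Sum.inl a ∧ y = Sum.inl b ∧ r a b, ?_, a, b, rfl, rfl, hab⟩
  rintro _ _ ⟨a, b, rfl, rfl, hab⟩
  rcases hr a b hab with ⟨i, j, h1, h2⟩ | ⟨S, T, h1, h2, h3, h4⟩
  · left
    refine ⟨i, j, ?_, ?_⟩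
    · rw [ext_gate_inl, h1]; rfl
    · rw [ext_gate_inl, h2]; rfl
  · right
    refine ⟨Lit.map Sum.inl '' S, Lit.map Sum.inl '' T, ?_, ?_, ?_, ?_⟩
    · rw [ext_gate_inl, h1]; rfl
    · rw [ext_gate_inl, h2]; rfl
    · rintro _ ⟨x, hx, rfl⟩
      obtain ⟨y, hy, e1, e2⟩ := h3 x hx
      exact ⟨Lit.map Sum.inl y, ⟨y, hy, rfl⟩, e1, _, _, rfl, rfl, e2⟩
    · rintro _ ⟨y, hy, rfl⟩
      obtain ⟨x, hx, e1, e2⟩ := h4 y hy
      exact ⟨Lit.map Sum.inl x, ⟨x, hx, rfl⟩, e1, _, _, rfl, rfl, e2⟩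

/-- invariant lines give invariant nodes -/
theorem img_line (R : Refutation P H) {σ : Perm P} {τ : Perm H} {Λ Δ : R.lines}
    (h : R.C.ImgL σ τ Λ.1 Δ.1) : R.ext.Img σ τ (Sum.inr Λ) (Sum.inr Δ) := by
  obtain ⟨h1, h2⟩ := h
  refine ⟨fun x y => (x = Sum.inr Λ ∧ y = Sum.inr Δ) ∨ R.ext.Img σ τ x y, ?_,
    Or.inl ⟨rfl, rfl⟩⟩
  rintro x y (⟨rfl, rfl⟩ | h)
  · right
    refine ⟨_, _, ext_gate_inr R Λ, ext_gate_inr R Δ, ?_, ?_⟩
    · rintro _ ⟨x, hx, rfl⟩
      obtain ⟨y, hy, e1, e2⟩ := h1 x hx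
      exact ⟨_, ⟨y, hy, rfl⟩, by simp [e1], Or.inr (img_ext R e2)⟩
    · rintro _ ⟨y, hy, rfl⟩
      obtain ⟨x, hx, e1, e2⟩ := h2 y hy
      exact ⟨_, ⟨x, hx, rfl⟩, by simp [e1], Or.inr (img_ext R e2)⟩
  · rcases h.gate with h3 | ⟨S, T, h3, h4, h5, h6⟩
    · exact Or.inl h3
    · refine Or.inr ⟨S, T, h3, h4, ?_, ?_⟩
      · intro x hx
        obtain ⟨y, hy, e1, e2⟩ := h5 x hx
        exact ⟨y, hy, e1, Or.inr e2⟩
      · intro y hy
        obtain ⟨x, hx, e1, e2⟩ := h6 y hy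
        exact ⟨x, hx, e1, Or.inr e2⟩

end Pool.Agent.H63.YL
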