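import Pool.Agent.H63.YL.Few
import Pool.Agent.H63.YL.Ext

/-!
# Counting the points in small classes and the exceptional points
-/

set_option autoImplicit false
set_option linter.unusedSectionVars false

namespace Pool.Agent.H63.YL

open Equiv Pool.Agent.H66.SF

variable {P H : Type} [Fintype P] [DecidableEq P] [Fintype H] [DecidableEq H]

theorem big_total (C : Circuit P H) (a : C.N) (X : Finset (P ⊕ H)) (M q : ℕ)
    (h : ∀ x, M ≤ (cl C a x).card → (X ∩ cl C a x).card ≤ q) :
    M * (X.filter fun x => M ≤ (cl C a x).card).card ≤ q * Fintype.card (P ⊕ H) := by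
  classical
  set Y := X.filter fun x => M ≤ (cl C a x).card with hY
  have h1 : ∑ x ∈ Y, (cl C a x).card = ∑ z : P ⊕ H, (Y.filter fun x => z ∈ cl C a x).card := by
    have h2 : ∀ x ∈ Y, (cl C a x).card =
        (Finset.univ.filter fun z => z ∈ cl C a x).card := by
      intro x _
      congr 1
      ext z; simp
    rw [Finset.sum_congr rfl h2]
    exact Finset.sum_card_bipartiteAbove_eq_sum_card_bipartiteBelow (fun x z => z ∈ cl C a x)
  have h3 : M * Y.card ≤ ∑ x ∈ Y, (cl C a x).card := by
    rw [mul_comm, ← smul_eq_mul]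
    exact Finset.card_nsmul_le_sum _ _ _ fun x hx => (Finset.mem_filter.1 hx).2
  have h4 : ∑ z : P ⊕ H, (Y.filter fun x => z ∈ cl C a x).card ≤ ∑ z : P ⊕ H, q := by
    refine Finset.sum_le_sum fun z _ => ?_
    rcases (Y.filter fun x => z ∈ cl C a x).eq_empty_or_nonempty with h5 | ⟨x, hx⟩
    · rw [h5]; simp
    · obtain ⟨hx1, hx2⟩ := Finset.mem_filter.1 hx
      have hM : M ≤ (cl C a z).card := by
        rw [cl_eq_of_mem hx2]; exact (Finset.mem_filter.1 hx1).2
      refine (Finset.card_le_card ?_).trans (h z hM)
      intro y hy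
      obtain ⟨hy1, hy2⟩ := Finset.mem_filter.1 hy
      exact Finset.mem_inter.2 ⟨(Finset.mem_filter.1 hy1).1, mem_cl_comm.1 hy2⟩
  rw [Finset.sum_const, smul_eq_mul, Finset.card_univ, mul_comm] at h4
  rw [h1] at h3
  exact h3.trans h4

/-- the exceptional points -/
theorem sup_card {C : Circuit P H} {a b : C.N} (hB : Below C a b) {T M : ℕ}
    (hT : 2 * Nat.card C.N < 2 ^ T) (hM : 6 * T ≤ M) (hM0 : 0 < M) :
    (sup C a b).card ≤ (small C M a).card + 3 * T * Fintype.card (P ⊕ H) / M := by
  classical
  have h1 := big_total C a (sup C a b) M (3 * T) (fun x hx => (few hB hT (by omega)).le)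
  have h2 : ((sup C a b).filter fun x => M ≤ (cl C a x).card).card ≤
      3 * T * Fintype.card (P ⊕ H) / M := by
    rw [Nat.le_div_iff_mul_le hM0, mul_comm]; exact h1
  have h3 := Finset.card_filter_add_card_filter_not (s := sup C a b)
    (fun x => M ≤ (cl C a x).card)
  have h4 : ((sup C a b).filter fun x => ¬ M ≤ (cl C a x).card).card ≤ (small C M a).card := by
    refine Finset.card_le_card ?_
    intro x hx
    rw [mem_small]
    have := (Finset.mem_filter.1 hx).2
    omega
  omega

/-- the points in small classes of a formula below `a` -/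
theorem small_card {C : Circuit P H} {a b : C.N} (hB : Below C a b) {T K L : ℕ}
    (hT : 2 * Nat.card C.N < 2 ^ T) (hK : 6 * T ≤ L) (hL : K + 3 * T ≤ L) (hL0 : 0 < L) :
    (small C K b).card ≤ (small C L a).card + 3 * T * Fintype.card (P ⊕ H) / L := by
  classical
  have h1 := big_total C a (sup C a b) L (3 * T) (fun x hx => (few hB hT (by omega)).le)
  have h2 : ((sup C a b).filter fun x => L ≤ (cl C a x).card).card ≤
      3 * T * Fintype.card (P ⊕ H) / L := by
    rw [Nat.le_div_iff_mul_le hL0, mul_comm]; exact h1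
  have h3 : small C K b ⊆ small C L a ∪ ((sup C a b).filter fun x => L ≤ (cl C a x).card) := by
    intro x hx
    rw [Finset.mem_union, Finset.mem_filter, mem_small]
    by_cases h4 : (cl C a x).card < L
    · exact Or.inl h4
    · right
      push Not at h4
      refine ⟨?_, h4⟩
      by_contra h5
      have h6 : cl C a x \ (sup C a b ∩ cl C a x) ⊆ cl C b x := by
        intro z hz
        obtain ⟨h7, h8⟩ := Finset.mem_sdiff.1 hz
        have h9 : z ∉ sup C a b := fun h => h8 (Finset.mem_inter.2 ⟨h, h7⟩)
        rw [cl_eq_of_notMem_sup h7 h5 h9]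
        exact self_mem_cl C b z
      have h7 := Finset.card_le_card h6
      have h8 := Finset.le_card_sdiff (sup C a b ∩ cl C a x) (cl C a x)
      have h9 := few hB hT (x := x) (by omega)
      rw [mem_small] at hx
      omega
  have h4 := Finset.card_le_card h3
  have h5 := Finset.card_union_le (small C L a) ((sup C a b).filter fun x => L ≤ (cl C a x).card)
  omega

/-- a node which is invariant under the full symmetric group of a block with at least three points
has a class containing the block: pigeons -/
theorem block_inl {C : Circuit P H} {a : C.N} {u : P → ℕ}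
    (h : ∀ σ : Perm P, (∀ i, u (σ i) = u i) → C.Img σ 1 a a) {L : ℕ} (hL : 3 ≤ L) {i : P}
    (hi : L ≤ {i' : P | u i' = u i}.ncard) : L ≤ (cl C a (Sum.inl i)).card := by
  classical
  have h1 : {i' : P | u i' = u i} = ((Finset.univ.filter fun i' => u i' = u i : Finset P) : Set P) := by
    ext; simp
  rw [h1, Set.ncard_coe_finset] at hi
  refine hi.trans ?_
  rw [← Finset.card_image_of_injective _ (Sum.inl_injective (α := P) (β := H))]
  refine Finset.card_le_card ?_
  intro x hx
  obtain ⟨k, hk, rfl⟩ := Finset.mem_image.1 hx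
  have hk1 : u k = u i := (Finset.mem_filter.1 hk).2
  by_cases hki : k = i
  · rw [hki]; exact self_mem_cl C a _
  -- a third point
  obtain ⟨l, hl, hl2⟩ : ∃ l ∈ (Finset.univ.filter fun i' => u i' = u i : Finset P),
      l ∉ ({i, k} : Finset P) := by
    apply Finset.exists_mem_notMem_of_card_lt_card
    have := Finset.card_le_two (a := i) (b := k)
    omega
  have hl1 : u l = u i := (Finset.mem_filter.1 hl).2
  simp only [Finset.mem_insert, Finset.mem_singleton, not_or] at hl2
  have e1 : swap (Sum.inl i : P ⊕ H) (Sum.inl k) = pr (swap i k) 1 := (Perm.sumCongr_swap_one i k).symm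
  have e2 : swap (Sum.inl i : P ⊕ H) (Sum.inl l) = pr (swap i l) 1 := (Perm.sumCongr_swap_one i l).symm
  have h3 : (swap (Sum.inl i : P ⊕ H) (Sum.inl k) * swap (Sum.inl i) (Sum.inl l)).IsThreeCycle := by
    apply Perm.isThreeCycle_swap_mul_swap_same
    · intro e; exact hki (Sum.inl_injective e).symm
    · intro e; exact hl2.1 (Sum.inl_injective e).symm
    · intro e; exact hl2.2 (Sum.inl_injective e).symm
  have h4 : swap (Sum.inl i : P ⊕ H) (Sum.inl k) * swap (Sum.inl i) (Sum.inl l) ∈ st C a := by
    rw [e1, e2, pr_mul, one_mul, pr_mem_st]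
    apply h
    intro z
    rw [Perm.mul_apply]
    have key : ∀ {p q : P}, u p = u q → ∀ z, u (swap p q z) = u z := by
      intro p q hpq z
      rcases eq_or_ne z p with rfl | h1
      · rw [swap_apply_left]; exact hpq.symm
      · rcases eq_or_ne z q with rfl | h2
        · rw [swap_apply_right]; exact hpq
        · rw [swap_apply_of_ne_of_ne h1 h2]
    rw [key hk1.symm, key hl1.symm]
  refine mem_cls.2 (Or.inr ⟨_, h4, h3, Finset.subset_univ _, ?_, ?_⟩)
  · rw [Perm.mem_support, Perm.mul_apply, swap_apply_left, swap_apply_of_ne_of_ne]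
    · intro e; exact hl2.1 (Sum.inl_injective e)
    · intro e; exact hl2.1 (Sum.inl_injective e)
    · intro e; exact hl2.2 (Sum.inl_injective e)
  · have e5 : swap (Sum.inl i : P ⊕ H) (Sum.inl l) (Sum.inl k) = Sum.inl k := by
      apply swap_apply_of_ne_of_ne
      · intro e; exact hki (Sum.inl_injective e)
      · intro e; exact hl2.2 (Sum.inl_injective e).symm
    rw [Perm.mem_support, Perm.mul_apply, e5, swap_apply_right]
    intro e; exact hki (Sum.inl_injective e).symm

/-- the same for holes -/
theorem block_inr {C : Circuit P H} {a : C.N} {v : H → ℕ}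
    (h : ∀ τ : Perm H, (∀ j, v (τ j) = v j) → C.Img 1 τ a a) {L : ℕ} (hL : 3 ≤ L) {j : H}
    (hj : L ≤ {j' : H | v j' = v j}.ncard) : L ≤ (cl C a (Sum.inr j)).card := by
  classical
  have h1 : {j' : H | v j' = v j} = ((Finset.univ.filter fun j' => v j' = v j : Finset H) : Set H) := by
    ext; simp
  rw [h1, Set.ncard_coe_finset] at hj
  refine hj.trans ?_
  rw [← Finset.card_image_of_injective _ (Sum.inr_injective (α := P) (β := H))]
  refine Finset.card_le_card ?_
  intro x hx
  obtain ⟨k, hk, rfl⟩ := Finset.mem_image.1 hx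
  have hk1 : v k = v j := (Finset.mem_filter.1 hk).2
  by_cases hki : k = j
  · rw [hki]; exact self_mem_cl C a _
  obtain ⟨l, hl, hl2⟩ : ∃ l ∈ (Finset.univ.filter fun j' => v j' = v j : Finset H),
      l ∉ ({j, k} : Finset H) := by
    apply Finset.exists_mem_notMem_of_card_lt_card
    have := Finset.card_le_two (a := j) (b := k)
    omega
  have hl1 : v l = v j := (Finset.mem_filter.1 hl).2
  simp only [Finset.mem_insert, Finset.mem_singleton, not_or] at hl2
  have e1 : swap (Sum.inr j : P ⊕ H) (Sum.inr k) = pr 1 (swap j k) := (Perm.sumCongr_one_swap j k).symm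
  have e2 : swap (Sum.inr j : P ⊕ H) (Sum.inr l) = pr 1 (swap j l) := (Perm.sumCongr_one_swap j l).symm
  have h3 : (swap (Sum.inr j : P ⊕ H) (Sum.inr k) * swap (Sum.inr j) (Sum.inr l)).IsThreeCycle := by
    apply Perm.isThreeCycle_swap_mul_swap_same
    · intro e; exact hki (Sum.inr_injective e).symm
    · intro e; exact hl2.1 (Sum.inr_injective e).symm
    · intro e; exact hl2.2 (Sum.inr_injective e).symm
  have h4 : swap (Sum.inr j : P ⊕ H) (Sum.inr k) * swap (Sum.inr j) (Sum.inr l) ∈ st C a := by
    rw [e1, e2, pr_mul, one_mul, pr_mem_st]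
    apply h
    intro z
    rw [Perm.mul_apply]
    have key : ∀ {p q : H}, v p = v q → ∀ z, v (swap p q z) = v z := by
      intro p q hpq z
      rcases eq_or_ne z p with rfl | h1
      · rw [swap_apply_left]; exact hpq.symm
      · rcases eq_or_ne z q with rfl | h2
        · rw [swap_apply_right]; exact hpq
        · rw [swap_apply_of_ne_of_ne h1 h2]
    rw [key hk1.symm, key hl1.symm]
  refine mem_cls.2 (Or.inr ⟨_, h4, h3, Finset.subset_univ _, ?_, ?_⟩)
  · rw [Perm.mem_support, Perm.mul_apply, swap_apply_left, swap_apply_of_ne_of_ne]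
    · intro e; exact hl2.1 (Sum.inr_injective e)
    · intro e; exact hl2.1 (Sum.inr_injective e)
    · intro e; exact hl2.2 (Sum.inr_injective e)
  · have e5 : swap (Sum.inr j : P ⊕ H) (Sum.inr l) (Sum.inr k) = Sum.inr k := by
      apply swap_apply_of_ne_of_ne
      · intro e; exact hki (Sum.inr_injective e)
      · intro e; exact hl2.2 (Sum.inr_injective e).symm
    rw [Perm.mem_support, Perm.mul_apply, e5, swap_apply_right]
    intro e; exact hki (Sum.inr_injective e).symm

/-- a homogeneous line has few points in small classes -/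
theorem line_small {R : Refutation P H} {Λ : R.lines} {L r : ℕ} (hL : 3 ≤ L)
    (h : R.C.Homogeneous L r Λ.1) : (small R.ext L (R.ln Λ)).card ≤ r := by
  classical
  obtain ⟨u, v, hinv, hr⟩ := h
  have h1 : small R.ext L (R.ln Λ) ⊆
      ((Finset.univ.filter fun i : P => {i' : P | u i' = u i}.ncard < L).image Sum.inl) ∪
      ((Finset.univ.filter fun j : H => {j' : H | v j' = v j}.ncard < L).image Sum.inr) := by
    intro x hx
    rw [mem_small] at hx
    rw [Finset.mem_union, Finset.mem_image, Finset.mem_image]
    rcases x with i | j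
    · left
      refine ⟨i, Finset.mem_filter.2 ⟨Finset.mem_univ _, ?_⟩, rfl⟩
      by_contra h2
      have h3 := block_inl (C := R.ext) (a := R.ln Λ) (u := u)
        (fun σ hσ => img_line R (hinv σ 1 hσ (fun _ => rfl))) hL (i := i) (by omega)
      omega
    · right
      refine ⟨j, Finset.mem_filter.2 ⟨Finset.mem_univ _, ?_⟩, rfl⟩
      by_contra h2
      have h3 := block_inr (C := R.ext) (a := R.ln Λ) (v := v)
        (fun τ hτ => img_line R (hinv 1 τ (fun _ => rfl) hτ)) hL (j := j) (by omega)
      omega
  refine (Finset.card_le_card h1).trans ((Finset.card_union_le _ _).trans ?_)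
  rw [Finset.card_image_of_injective _ Sum.inl_injective,
    Finset.card_image_of_injective _ Sum.inr_injective]
  refine le_trans (le_of_eq ?_) hr
  unfold rare
  have e1 : {i : P | {i' : P | u i' = u i}.ncard < L} =
      ((Finset.univ.filter fun i : P => {i' : P | u i' = u i}.ncard < L : Finset P) : Set P) := by
    ext; simp
  have e2 : {j : H | {j' : H | v j' = v j}.ncard < L} =
      ((Finset.univ.filter fun j : H => {j' : H | v j' = v j}.ncard < L : Finset H) : Set H) := by
    ext; simp
  rw [e1, e2, Set.ncard_coe_finset, Set.ncard_coe_finset]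

end Pool.Agent.H63.YL
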