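import Pool.Agent.H63.YL.Cls
import Pool.Agent.H66.SF.Count

/-!
# A formula below `a` is almost homogeneous on every class of `a`
-/

set_option autoImplicit false

namespace Pool.Agent.H63.YL

open Equiv Equiv.Perm Pool.Agent.H66.SF

variable {P H : Type} [Fintype P] [DecidableEq P] [Fintype H] [DecidableEq H]

/-- an even permutation of the points of one class fixes the formula -/
theorem even_mem_st {C : Circuit P H} {a : C.N} {x : P ⊕ H} {g : Perm (P ⊕ H)}
    (hg : sign g = 1) (hgC : g.support ⊆ cl C a x) : g ∈ st C a := by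
  classical
  set D : Finset (P ⊕ H) := cl C a x with hD
  have hmap : ∀ k ∈ alternatingGroup D, Perm.ofSubtype (p := (· ∈ D)) k ∈ st C a := by
    intro k hk
    rw [← closure_three_cycles_eq_alternating] at hk
    induction hk using Subgroup.closure_induction with
    | mem y hy =>
      apply threeCycle_mem_st (x := x) (g := Perm.ofSubtype y)
      · have hx3 : y.IsThreeCycle := hy
        have h1 := hx3.cycleType
        have h2 : (Perm.ofSubtype (p := (· ∈ D)) y).cycleType = y.cycleType := by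
          convert cycleType_ofSubtype (p := (· ∈ D)) (g := y)
        exact h2.trans h1
      · intro z hz
        by_contra hzS
        exact (mem_support.1 hz) (Perm.ofSubtype_apply_of_not_mem y hzS)
    | one => rw [map_one]; exact (st C a).one_mem
    | mul y z _ _ hy hz => rw [map_mul]; exact (st C a).mul_mem hy hz
    | inv y _ hy => rw [map_inv]; exact (st C a).inv_mem hy
  have hp : ∀ y, g y ∈ D ↔ y ∈ D := by
    intro y
    by_cases hy : y ∈ g.support
    · exact ⟨fun _ => hgC hy, fun _ => hgC (apply_mem_support.2 hy)⟩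
    · rw [notMem_support.1 hy]
  have hg' : Perm.ofSubtype (g.subtypePerm hp) = g := by
    apply Perm.ofSubtype_subtypePerm
    intro y hy
    exact hgC (mem_support.2 hy)
  rw [← hg']
  apply hmap
  rw [mem_alternatingGroup, ← Perm.sign_ofSubtype, hg', hg]

private theorem card_even {C : Circuit P H} {a b : C.N} (hB : Below C a b) (x : P ⊕ H)
    (T : Finset (Perm (P ⊕ H))) (h1 : ∀ g ∈ T, g.support ⊆ cl C a x) (h2 : ∀ g ∈ T, sign g = 1)
    (h3 : ∀ g ∈ T, ∀ g' ∈ T, g⁻¹ * g' ∈ st C b → g = g') : T.card ≤ Nat.card C.N := by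
  classical
  have h4 : ∀ g : T, ∃ c : C.N, ∃ σ τ, (g : Perm (P ⊕ H)) = pr σ τ ∧ C.Img σ τ b c := by
    rintro ⟨g, hg⟩
    obtain ⟨σ, τ, h5, h6⟩ := mem_st.1 (even_mem_st (h2 g hg) (h1 g hg))
    obtain ⟨c, -, h7⟩ := hB.img h6
    exact ⟨c, σ, τ, h5, h7⟩
  choose φ hφ using h4
  have h5 : Function.Injective φ := by
    rintro ⟨g, hg⟩ ⟨g', hg'⟩ h6
    obtain ⟨σ, τ, h7, h8⟩ := hφ ⟨g, hg⟩
    obtain ⟨σ', τ', h9, h10⟩ := hφ ⟨g', hg'⟩
    rw [← h6] at h10
    have h11 : g⁻¹ * g' ∈ st C b := by
      simp only at h7 h9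
      rw [h7, h9, pr_inv, pr_mul, pr_mem_st]
      exact h10.trans h8.symm
    exact Subtype.ext (h3 g hg g' hg' h11)
  have h6 := Nat.card_le_card_of_injective φ h5
  simpa using h6

theorem indexLE {C : Circuit P H} {a b : C.N} (hB : Below C a b) (x : P ⊕ H) :
    IndexLE (st C b) (cl C a x) (2 * Nat.card C.N) := by
  classical
  intro T h1 h2
  have h3 : (T.filter fun g => sign g = 1).card ≤ Nat.card C.N := by
    apply card_even hB x
    · intro g hg; exact h1 g (Finset.mem_filter.1 hg).1
    · intro g hg; exact (Finset.mem_filter.1 hg).2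
    · intro g hg g' hg'; exact h2 g (Finset.mem_filter.1 hg).1 g' (Finset.mem_filter.1 hg').1
  have h4 : (T.filter fun g => ¬ sign g = 1).card ≤ Nat.card C.N := by
    rcases (T.filter fun g => ¬ sign g = 1).eq_empty_or_nonempty with h | ⟨g₀, hg₀⟩
    · rw [h]; simp
    have hs : ∀ g : Perm (P ⊕ H), ¬ sign g = 1 → sign g = -1 := by
      intro g hg
      rcases Int.units_eq_one_or (sign g) with h | h
      · exact absurd h hg
      · exact h
    rw [← Finset.card_image_of_injective (T.filter fun g => ¬ sign g = 1)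
      (mul_right_injective g₀)]
    apply card_even hB x
    · intro g hg
      obtain ⟨g', hg', rfl⟩ := Finset.mem_image.1 hg
      refine (support_mul_le _ _).trans (Finset.union_subset ?_ ?_)
      · exact h1 g₀ (Finset.mem_filter.1 hg₀).1
      · exact h1 g' (Finset.mem_filter.1 hg').1
    · intro g hg
      obtain ⟨g', hg', rfl⟩ := Finset.mem_image.1 hg
      rw [Perm.sign_mul, hs g₀ (Finset.mem_filter.1 hg₀).2, hs g' (Finset.mem_filter.1 hg').2]
      rfl
    · intro g hg g' hg' h
      obtain ⟨k, hk, rfl⟩ := Finset.mem_image.1 hg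
      obtain ⟨k', hk', rfl⟩ := Finset.mem_image.1 hg'
      have h5 : (g₀ * k)⁻¹ * (g₀ * k') = k⁻¹ * k' := by group
      rw [h5] at h
      rw [h2 k (Finset.mem_filter.1 hk).1 k' (Finset.mem_filter.1 hk').1 h]
  have h5 := Finset.card_filter_add_card_filter_not (s := T) (fun g => sign g = 1)
  omega

/-- **Few exceptional points** of a formula below `a` in every class of `a`. -/
theorem few {C : Circuit P H} {a b : C.N} (hB : Below C a b) {T : ℕ}
    (hT : 2 * Nat.card C.N < 2 ^ T) {x : P ⊕ H} (hx : 6 * T ≤ (cl C a x).card) :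
    (sup C a b ∩ cl C a x).card < 3 * T := by
  refine lt_of_le_of_lt (Finset.card_le_card ?_) (supp_inter_card_lt (st C b) (indexLE hB x) hT hx)
  intro y hy
  obtain ⟨h1, h2⟩ := Finset.mem_inter.1 hy
  refine Finset.mem_inter.2 ⟨?_, h2⟩
  rw [mem_supp]
  rw [mem_sup, cl_eq_of_mem h2] at h1
  intro h3
  apply h1
  refine lt_of_lt_of_le h3 (Nat.mul_le_mul_left 2 (Finset.card_le_card ?_))
  intro z hz
  refine Finset.mem_inter.2 ⟨?_, cls_subset h2 hz⟩
  rcases mem_cls.1 hz with rfl | ⟨g, h4, h5, -, h6, h7⟩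
  · exact self_mem_cl C b _
  · exact mem_cls.2 (Or.inr ⟨g, h4, h5, Finset.subset_univ _, h6, h7⟩)

/-- **Relative supports agree**: relative to `a` or relative to a formula between `a` and `b`. -/
theorem sup_iff {C : Circuit P H} {a b c : C.N} (hab : Below C a b) (hbc : Below C b c) {T : ℕ}
    (hT : 2 * Nat.card C.N < 2 ^ T) {x : P ⊕ H} (hx : 12 * T ≤ (cl C a x).card)
    (hxb : x ∉ sup C a b) : x ∈ sup C b c ↔ x ∈ sup C a c := by
  have hT0 : 0 < T := by
    rcases Nat.eq_zero_or_pos T with h | h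
    · subst h
      have : Nonempty C.N := ⟨a⟩
      have := Nat.card_pos (α := C.N)
      simp at hT; omega
    · exact h
  -- the points of the class of `x` for `a` outside `sup C a b` are in the class for `b`
  have h1 : cl C a x \ sup C a b ⊆ cl C b x := by
    intro z hz
    obtain ⟨h2, h3⟩ := Finset.mem_sdiff.1 hz
    rw [cl_eq_of_notMem_sup h2 hxb h3]
    exact self_mem_cl C b z
  have h2 := few hab hT (x := x) (by omega)
  have h3 : (cl C a x \ sup C a b).card + (sup C a b ∩ cl C a x).card = (cl C a x).card := by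
    rw [Finset.inter_comm]
    exact Finset.card_sdiff_add_card_inter _ _
  have h4 := Finset.card_le_card h1
  have h5 := few hbc hT (x := x) (by omega)
  have h6 := few (hab.trans hbc) hT (x := x) (by omega)
  -- a common good point
  obtain ⟨z, hz⟩ : ((cl C a x \ sup C a b) \ ((sup C b c ∩ cl C b x) ∪
      (sup C a c ∩ cl C a x))).Nonempty := by
    rw [← Finset.card_pos]
    have h7 := Finset.le_card_sdiff ((sup C b c ∩ cl C b x) ∪ (sup C a c ∩ cl C a x))
      (cl C a x \ sup C a b)
    have h8 := Finset.card_union_le (sup C b c ∩ cl C b x) (sup C a c ∩ cl C a x)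
    omega
  obtain ⟨h7, h8⟩ := Finset.mem_sdiff.1 hz
  have hza : z ∈ cl C a x := (Finset.mem_sdiff.1 h7).1
  have hzb : z ∈ cl C b x := h1 h7
  have hz1 : z ∉ sup C b c := fun h => h8 (Finset.mem_union_left _ (Finset.mem_inter.2 ⟨h, hzb⟩))
  have hz2 : z ∉ sup C a c := fun h => h8 (Finset.mem_union_right _ (Finset.mem_inter.2 ⟨h, hza⟩))
  rw [← not_iff_not]
  constructor
  · intro h9
    have h10 := cl_eq_of_notMem_sup hzb h9 hz1
    rw [mem_sup, not_not] at hz2 ⊢
    rw [h10, ← cl_eq_of_mem hza]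
    exact hz2
  · intro h9
    have h10 := cl_eq_of_notMem_sup hza h9 hz2
    rw [mem_sup, not_not] at hz1 ⊢
    rw [h10, ← cl_eq_of_mem hzb]
    exact hz1

end Pool.Agent.H63.YL
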