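import Pool.Agent.H63.YL.Perm
import Pool.Agent.H63.YL.Val

/-!
# A matching which is rich in many rectangles
-/

set_option autoImplicit false
set_option linter.unusedSectionVars false

namespace Pool.Agent.H63.YL

open Finset Equiv

variable {P H : Type} [Fintype P] [DecidableEq P] [Fintype H] [DecidableEq H]

private theorem moment {m : ℕ} (eP : Fin m ↪ P) (eH : Fin m ↪ H) (hP : 0 < Fintype.card P)
    (hH : 0 < Fintype.card H) (A : Finset P) (B : Finset H) :
    ∑ π : Perm P × Perm H, (1 / 2 : ℝ) ^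
        (univ.filter fun s => π.1 (eP s) ∈ A ∧ π.2 (eH s) ∈ B).card ≤
      (Fintype.card (Perm P) : ℝ) * (Fintype.card (Perm H) : ℝ) *
        Real.exp (-((A.card : ℝ) * B.card * m / (16 * Fintype.card H * Fintype.card P))) := by
  have hP' : (0 : ℝ) < Fintype.card P := by exact_mod_cast hP
  have hH' : (0 : ℝ) < Fintype.card H := by exact_mod_cast hH
  rw [Fintype.sum_prod_type]
  set w : ℝ := Real.exp (-((B.card : ℝ) / (4 * Fintype.card H))) with hw
  -- first the permutations of the holes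
  have h1 : ∀ σ : Perm P, ∑ τ : Perm H, (1 / 2 : ℝ) ^
      (univ.filter fun s => σ (eP s) ∈ A ∧ τ (eH s) ∈ B).card ≤
      (Fintype.card (Perm H) : ℝ) * w ^ (univ.filter fun s => σ (eP s) ∈ A).card := by
    intro σ
    have h2 := perm_moment hH ((univ.filter fun s => σ (eP s) ∈ A).image eH) B
      (w := 1 / 2) (by norm_num) (by norm_num)
    rw [card_image_of_injective _ eH.injective] at h2
    have h3 : ∀ τ : Perm H, (((univ.filter fun s => σ (eP s) ∈ A).image eH).image τ ∩ B).card =
        (univ.filter fun s => σ (eP s) ∈ A ∧ τ (eH s) ∈ B).card := by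
      intro τ
      rw [← card_image_of_injective (univ.filter fun s => σ (eP s) ∈ A ∧ τ (eH s) ∈ B)
        (τ.injective.comp eH.injective)]
      congr 1
      ext y
      simp only [mem_inter, mem_image, mem_filter, mem_univ, true_and, Function.comp]
      constructor
      · rintro ⟨⟨z, ⟨s, hs, rfl⟩, rfl⟩, hy⟩
        exact ⟨s, ⟨hs, hy⟩, rfl⟩
      · rintro ⟨s, ⟨hs, hy⟩, rfl⟩
        exact ⟨⟨_, ⟨s, hs, rfl⟩, rfl⟩, hy⟩
    simp only [h3] at h2
    refine h2.trans (le_of_eq ?_)
    congr 1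
    rw [hw, ← Real.exp_nat_mul]
    congr 1
    field_simp
    ring
  refine (sum_le_sum fun σ _ => h1 σ).trans ?_
  rw [← mul_sum]
  have h2 := perm_moment hP ((univ : Finset (Fin m)).image eP) A (w := w) (Real.exp_pos _).le
    (by rw [hw]; apply Real.exp_le_one_iff.2; rw [neg_nonpos]; positivity)
  rw [card_image_of_injective _ eP.injective, card_univ, Fintype.card_fin] at h2
  have h3 : ∀ σ : Perm P, (((univ : Finset (Fin m)).image eP).image σ ∩ A).card =
      (univ.filter fun s => σ (eP s) ∈ A).card := by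
    intro σ
    rw [← card_image_of_injective (univ.filter fun s => σ (eP s) ∈ A)
      (σ.injective.comp eP.injective)]
    congr 1
    ext y
    simp only [mem_inter, mem_image, mem_filter, mem_univ, true_and, Function.comp]
    constructor
    · rintro ⟨⟨z, ⟨s, rfl⟩, rfl⟩, hy⟩
      exact ⟨s, hy, rfl⟩
    · rintro ⟨s, hy, rfl⟩
      exact ⟨⟨_, ⟨s, rfl⟩, rfl⟩, hy⟩
  simp only [h3] at h2
  have h4 : (B.card : ℝ) / (8 * Fintype.card H) ≤ 1 - w := by
    have h5 : (B.card : ℝ) / (4 * Fintype.card H) ≤ 1 := by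
      rw [div_le_one (by positivity)]
      have : (B.card : ℝ) ≤ Fintype.card H := by exact_mod_cast card_le_univ B
      linarith
    have h6 := one_sub_exp (x := (B.card : ℝ) / (4 * Fintype.card H)) (by positivity) h5
    rw [hw]
    refine le_trans (le_of_eq ?_) h6
    field_simp
    ring
  calc (Fintype.card (Perm H) : ℝ) * ∑ σ : Perm P, w ^ (univ.filter fun s => σ (eP s) ∈ A).card
      ≤ (Fintype.card (Perm H) : ℝ) * ((Fintype.card (Perm P) : ℝ) *
        Real.exp (-((1 - w) * ((m : ℝ) * A.card / (2 * Fintype.card P))))) :=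
        mul_le_mul_of_nonneg_left h2 (Nat.cast_nonneg _)
    _ ≤ (Fintype.card (Perm H) : ℝ) * ((Fintype.card (Perm P) : ℝ) *
        Real.exp (-((A.card : ℝ) * B.card * m / (16 * Fintype.card H * Fintype.card P)))) := by
        refine mul_le_mul_of_nonneg_left (mul_le_mul_of_nonneg_left ?_ (Nat.cast_nonneg _))
          (Nat.cast_nonneg _)
        rw [Real.exp_le_exp, neg_le_neg_iff]
        have h5 : (0 : ℝ) ≤ (m : ℝ) * A.card / (2 * Fintype.card P) := by positivity
        refine le_trans (le_of_eq ?_) (mul_le_mul_of_nonneg_right h4 h5)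
        field_simp
        ring
    _ = _ := by ring

/-- **A rich matching.** -/
theorem exists_rich {I : Type} [Fintype I] (A : I → Finset P) (B : I → Finset H) {m K κ : ℕ}
    (hmP : m ≤ Fintype.card P) (hmH : m ≤ Fintype.card H) (hP : 0 < Fintype.card P)
    (hH : 0 < Fintype.card H) (hA : ∀ i, K ≤ (A i).card) (hB : ∀ i, K ≤ (B i).card)
    (h : (Fintype.card I : ℝ) * 2 ^ κ *
      Real.exp (-((K : ℝ) * K * m / (16 * Fintype.card H * Fintype.card P))) < 1) :
    ∃ f : Finset (P × H), PM f ∧ f.card = m ∧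
      ∀ i, κ ≤ (f.filter fun p => p.1 ∈ A i ∧ p.2 ∈ B i).card := by
  classical
  obtain ⟨eP⟩ : Nonempty (Fin m ↪ P) := by
    rw [Function.Embedding.nonempty_iff_card_le]; simpa using hmP
  obtain ⟨eH⟩ : Nonempty (Fin m ↪ H) := by
    rw [Function.Embedding.nonempty_iff_card_le]; simpa using hmH
  have hP' : (0 : ℝ) < Fintype.card P := by exact_mod_cast hP
  have hH' : (0 : ℝ) < Fintype.card H := by exact_mod_cast hH
  -- a good pair of permutations
  obtain ⟨π, hπ⟩ : ∃ π : Perm P × Perm H, ∀ i,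
      κ ≤ (univ.filter fun s => π.1 (eP s) ∈ A i ∧ π.2 (eH s) ∈ B i).card := by
    by_contra hcon
    push Not at hcon
    set E := Real.exp (-((K : ℝ) * K * m / (16 * Fintype.card H * Fintype.card P))) with hE
    have h1 : ∀ π : Perm P × Perm H, (1 : ℝ) ≤ ∑ i, 2 ^ κ * (1 / 2 : ℝ) ^
        (univ.filter fun s => π.1 (eP s) ∈ A i ∧ π.2 (eH s) ∈ B i).card := by
      intro π
      obtain ⟨i, hi⟩ := hcon π
      have h2 : (1 : ℝ) ≤ 2 ^ κ * (1 / 2 : ℝ) ^
          (univ.filter fun s => π.1 (eP s) ∈ A i ∧ π.2 (eH s) ∈ B i).card := by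
        have h3 : (1 / 2 : ℝ) ^ κ ≤ (1 / 2 : ℝ) ^
          (univ.filter fun s => π.1 (eP s) ∈ A i ∧ π.2 (eH s) ∈ B i).card :=
          pow_le_pow_of_le_one (by norm_num) (by norm_num) hi.le
        calc (1 : ℝ) = 2 ^ κ * (1 / 2 : ℝ) ^ κ := by
              rw [← mul_pow]; norm_num
          _ ≤ _ := mul_le_mul_of_nonneg_left h3 (by positivity)
      exact h2.trans (single_le_sum (f := fun i => 2 ^ κ * (1 / 2 : ℝ) ^
        (univ.filter fun s => π.1 (eP s) ∈ A i ∧ π.2 (eH s) ∈ B i).card)
        (fun i _ => by positivity) (mem_univ i))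
    have h2 : (Fintype.card (Perm P) : ℝ) * Fintype.card (Perm H) ≤
        ∑ π : Perm P × Perm H, ∑ i, 2 ^ κ * (1 / 2 : ℝ) ^
        (univ.filter fun s => π.1 (eP s) ∈ A i ∧ π.2 (eH s) ∈ B i).card := by
      have h3 := sum_le_sum (s := (univ : Finset (Perm P × Perm H))) fun π _ => h1 π
      rw [sum_const, card_univ, Fintype.card_prod, nsmul_eq_mul, mul_one] at h3
      rw [← Nat.cast_mul]
      exact h3
    rw [sum_comm] at h2
    have h3 : ∀ i ∈ (univ : Finset I), ∑ π : Perm P × Perm H, 2 ^ κ * (1 / 2 : ℝ) ^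
        (univ.filter fun s => π.1 (eP s) ∈ A i ∧ π.2 (eH s) ∈ B i).card ≤
        2 ^ κ * ((Fintype.card (Perm P) : ℝ) * (Fintype.card (Perm H) : ℝ) * E) := by
      intro i _
      rw [← mul_sum]
      refine mul_le_mul_of_nonneg_left ((moment eP eH hP hH (A i) (B i)).trans ?_) (by positivity)
      refine mul_le_mul_of_nonneg_left ?_ (by positivity)
      rw [hE, Real.exp_le_exp, neg_le_neg_iff]
      have h4 : (K : ℝ) ≤ (A i).card := by exact_mod_cast hA i
      have h5 : (K : ℝ) ≤ (B i).card := by exact_mod_cast hB i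
      have h6 : (0 : ℝ) ≤ K := Nat.cast_nonneg _
      gcongr
    have h4 := h2.trans (sum_le_sum h3)
    rw [sum_const, card_univ, nsmul_eq_mul] at h4
    have h5 : (0 : ℝ) < (Fintype.card (Perm P) : ℝ) * Fintype.card (Perm H) := by
      have e1 : 0 < Fintype.card (Perm P) := Fintype.card_pos
      have e2 : 0 < Fintype.card (Perm H) := Fintype.card_pos
      positivity
    have h6 : (Fintype.card I : ℝ) * (2 ^ κ * ((Fintype.card (Perm P) : ℝ) *
        (Fintype.card (Perm H) : ℝ) * E)) =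
        ((Fintype.card I : ℝ) * 2 ^ κ * E) * ((Fintype.card (Perm P) : ℝ) *
        Fintype.card (Perm H)) := by ring
    rw [h6] at h4
    nlinarith
  -- the matching
  have hinj : Function.Injective fun s => ((π.1 (eP s), π.2 (eH s)) : P × H) := by
    intro s t hst
    exact eP.injective (π.1.injective (Prod.mk.inj hst).1)
  refine ⟨univ.image fun s => (π.1 (eP s), π.2 (eH s)), ?_, ?_, ?_⟩
  · intro p hp q hq
    obtain ⟨s, -, rfl⟩ := mem_image.1 hp
    obtain ⟨t, -, rfl⟩ := mem_image.1 hq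
    simp
  · rw [card_image_of_injective _ hinj, card_univ, Fintype.card_fin]
  · intro i
    refine (hπ i).trans ?_
    rw [← card_image_of_injective _ hinj]
    refine card_le_card ?_
    intro p hp
    obtain ⟨s, hs, rfl⟩ := mem_image.1 hp
    exact mem_filter.2 ⟨mem_image.2 ⟨s, mem_univ _, rfl⟩, (mem_filter.1 hs).2⟩

end Pool.Agent.H63.YL
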