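import Pool.Agent.H63.YL.EvP
import Pool.Agent.H63.YL.Cnt
import Pool.Agent.H63.YL.Rand

/-!
# The lower bound for refutations with homogeneous lines
-/

set_option autoImplicit false
set_option linter.unusedSectionVars false

namespace Pool.Agent.H63.YL

open Equiv

/-- the cell of a node as a rectangle -/
theorem cell_card {P H : Type} [Fintype P] [DecidableEq P] [Fintype H] [DecidableEq H]
    (C : Circuit P H) (a : C.N) (f : Finset (P × H)) (i : P) (j : H) :
    (f.filter fun p => p.1 ∈ (Finset.univ.filter fun i' => Sum.inl i' ∈ cl C a (Sum.inl i)) ∧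
      p.2 ∈ (Finset.univ.filter fun j' => Sum.inr j' ∈ cl C a (Sum.inr j))).card =
      (cell C a f i j).card := by
  congr 1
  ext p
  simp [cell]

theorem card_left {P H : Type} [Fintype P] [DecidableEq P] [Fintype H] [DecidableEq H]
    (C : Circuit P H) (a : C.N) (i : P) :
    (Finset.univ.filter fun i' : P => (Sum.inl i' : P ⊕ H) ∈ cl C a (Sum.inl i)).card =
      (cl C a (Sum.inl i)).card := by
  rw [← Finset.card_image_of_injective _ (Sum.inl_injective (α := P) (β := H))]
  congr 1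
  ext x
  simp only [Finset.mem_image, Finset.mem_filter, Finset.mem_univ, true_and]
  constructor
  · rintro ⟨y, hy, rfl⟩; exact hy
  · intro hx
    have h1 := cl_side hx
    rcases x with x | x
    · exact ⟨x, hx, rfl⟩
    · simp at h1

theorem card_right {P H : Type} [Fintype P] [DecidableEq P] [Fintype H] [DecidableEq H]
    (C : Circuit P H) (a : C.N) (j : H) :
    (Finset.univ.filter fun j' : H => (Sum.inr j' : P ⊕ H) ∈ cl C a (Sum.inr j)).card =
      (cl C a (Sum.inr j)).card := by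
  rw [← Finset.card_image_of_injective _ (Sum.inr_injective (α := P) (β := H))]
  congr 1
  ext x
  simp only [Finset.mem_image, Finset.mem_filter, Finset.mem_univ, true_and]
  constructor
  · rintro ⟨y, hy, rfl⟩; exact hy
  · intro hx
    have h1 := cl_side hx
    rcases x with x | x
    · simp at h1
    · exact ⟨x, hx, rfl⟩

/-- a matching which is rich for all nodes of a circuit -/
theorem exists_rich_all {P H : Type} [Fintype P] [DecidableEq P] [Fintype H] [DecidableEq H]
    (C : Circuit P H) {m K κ : ℕ} (hmP : m ≤ Fintype.card P) (hmH : m ≤ Fintype.card H)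
    (hP : 0 < Fintype.card P) (hH : 0 < Fintype.card H) (hKP : K ≤ Fintype.card P)
    (hKH : K ≤ Fintype.card H)
    (h : (Nat.card C.N : ℝ) * Fintype.card P * Fintype.card H * 2 ^ κ *
      Real.exp (-((K : ℝ) * K * m / (16 * Fintype.card H * Fintype.card P))) < 1) :
    ∃ f : Finset (P × H), PM f ∧ f.card = m ∧ ∀ a, Rich C a K κ f := by
  classical
  have : Fintype C.N := Fintype.ofFinite C.N
  let A : C.N × P × H → Finset P := fun x =>
    if K ≤ (cl C x.1 (Sum.inl x.2.1)).card then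
      Finset.univ.filter fun i' => Sum.inl i' ∈ cl C x.1 (Sum.inl x.2.1) else Finset.univ
  let B : C.N × P × H → Finset H := fun x =>
    if K ≤ (cl C x.1 (Sum.inr x.2.2)).card then
      Finset.univ.filter fun j' => Sum.inr j' ∈ cl C x.1 (Sum.inr x.2.2) else Finset.univ
  obtain ⟨f, hf, hfm, hr⟩ := exists_rich A B (m := m) (K := K) (κ := κ) hmP hmH hP hH
    (by
      intro x
      simp only [A]
      split_ifs with h1
      · rw [card_left]; exact h1
      · rw [Finset.card_univ]; exact hKP)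
    (by
      intro x
      simp only [B]
      split_ifs with h1
      · rw [card_right]; exact h1
      · rw [Finset.card_univ]; exact hKH)
    (by
      rw [Fintype.card_prod, Fintype.card_prod, ← Nat.card_eq_fintype_card (α := C.N)]
      push_cast
      refine lt_of_le_of_lt (le_of_eq ?_) h
      ring)
  refine ⟨f, hf, hfm, ?_⟩
  intro a i j hi hj
  have h1 := hr (a, i, j)
  simp only [A, B] at h1
  rw [if_pos hi, if_pos hj, cell_card] at h1
  exact h1

theorem numeric {n L t S K : ℕ} (ht : 1 ≤ t) (hn : n < 2 ^ t)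
    (hL : 2 ^ 15 * n * t ≤ L ^ 2) (hS : S < 2 ^ t) (hn1 : 1000 ≤ n) (hK : K = L / 2) (hL1 : 100 ≤ L) :
    (S : ℝ) * ((n + 1 : ℕ) : ℝ) * (n : ℝ) * 2 ^ (12 * (t + 1) + 4) *
      Real.exp (-((K : ℝ) * K * ((n / 2 : ℕ) : ℝ) / (16 * (n : ℝ) * ((n + 1 : ℕ) : ℝ)))) < 1 := by
  have hnpos : (0 : ℝ) < n := by
    have : 0 < n := by omega
    exact_mod_cast this
  have h1 : (S : ℝ) ≤ 2 ^ t := by exact_mod_cast hS.le
  have h2 : ((n + 1 : ℕ) : ℝ) ≤ 2 ^ t := by exact_mod_cast hn
  have h3 : (n : ℝ) ≤ 2 ^ t := by exact_mod_cast hn.le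
  -- the prefactor
  have h4 : (S : ℝ) * ((n + 1 : ℕ) : ℝ) * (n : ℝ) * 2 ^ (12 * (t + 1) + 4) ≤ 2 ^ (31 * t) := by
    calc (S : ℝ) * ((n + 1 : ℕ) : ℝ) * (n : ℝ) * 2 ^ (12 * (t + 1) + 4)
        ≤ 2 ^ t * 2 ^ t * 2 ^ t * 2 ^ (12 * (t + 1) + 4) := by gcongr
      _ = 2 ^ (t + t + t + (12 * (t + 1) + 4)) := by rw [← pow_add, ← pow_add, ← pow_add]
      _ ≤ 2 ^ (31 * t) := pow_le_pow_right₀ (by norm_num) (by omega)
  have h5 : (2 : ℝ) ^ (31 * t) < Real.exp (22 * t) := by
    have h6 : (2 : ℝ) < Real.exp (7 / 10) := by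
      have := Real.exp_one_gt_d9
      have h7 : (2 : ℝ) ^ 10 < Real.exp (7 / 10) ^ 10 := by
        rw [← Real.exp_nat_mul]
        have h8 : ((10 : ℕ) : ℝ) * (7 / 10) = ((7 : ℕ) : ℝ) * 1 := by norm_num
        rw [h8, Real.exp_nat_mul]
        calc (2 : ℝ) ^ 10 < 2.7 ^ 7 := by norm_num
          _ ≤ Real.exp 1 ^ 7 := by
            apply pow_le_pow_left₀ (by norm_num)
            linarith
      exact lt_of_pow_lt_pow_left₀ 10 (Real.exp_pos _).le h7
    calc (2 : ℝ) ^ (31 * t) < Real.exp (7 / 10) ^ (31 * t) :=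
          pow_lt_pow_left₀ h6 (by norm_num) (by omega)
      _ = Real.exp (31 * 7 / 10 * t) := by
          rw [← Real.exp_nat_mul]
          congr 1
          push_cast
          ring
      _ ≤ Real.exp (22 * t) := by
          rw [Real.exp_le_exp]
          have : (0 : ℝ) ≤ t := Nat.cast_nonneg t
          nlinarith
  -- the exponent
  have h6 : (22 * t : ℝ) ≤
      (K : ℝ) * K * ((n / 2 : ℕ) : ℝ) / (16 * (n : ℝ) * ((n + 1 : ℕ) : ℝ)) := by
    have e1 : (L : ℝ) * (49 / 100) ≤ K := by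
      have : L ≤ 2 * K + 1 := by omega
      have h7 : (L : ℝ) ≤ 2 * K + 1 := by exact_mod_cast this
      have h8 : (100 : ℝ) ≤ L := by exact_mod_cast hL1
      linarith
    have e2 : (n : ℝ) * (49 / 100) ≤ ((n / 2 : ℕ) : ℝ) := by
      have : n ≤ 2 * (n / 2) + 1 := by omega
      have h7 : (n : ℝ) ≤ 2 * ((n / 2 : ℕ) : ℝ) + 1 := by exact_mod_cast this
      have h8 : (1000 : ℝ) ≤ n := by exact_mod_cast hn1
      linarith
    have e3 : (2 ^ 15 * n * t : ℝ) ≤ L ^ 2 := by exact_mod_cast hL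
    have e4 : ((n + 1 : ℕ) : ℝ) ≤ 2 * n := by
      push_cast
      have h8 : (1000 : ℝ) ≤ n := by exact_mod_cast hn1
      linarith
    have hn1' : (0 : ℝ) < ((n + 1 : ℕ) : ℝ) := by positivity
    rw [le_div_iff₀ (by positivity)]
    have hL0 : (0 : ℝ) ≤ L := Nat.cast_nonneg L
    have ht0 : (0 : ℝ) ≤ t := Nat.cast_nonneg t
    calc (22 * t : ℝ) * (16 * (n : ℝ) * ((n + 1 : ℕ) : ℝ))
        ≤ (22 * t : ℝ) * (16 * (n : ℝ) * (2 * n)) := by gcongr
      _ = (704 * (n * t)) * n := by ring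
      _ ≤ (L ^ 2 * (49 / 100) ^ 2) * (n * (49 / 100)) := by
          have e5 : (704 * (n * t) : ℝ) ≤ L ^ 2 * (49 / 100) ^ 2 * (49 / 100) := by
            have : (0 : ℝ) ≤ n * t := by positivity
            nlinarith
          calc (704 * (n * t) : ℝ) * n ≤ (L ^ 2 * (49 / 100) ^ 2 * (49 / 100)) * n :=
                mul_le_mul_of_nonneg_right e5 hnpos.le
            _ = _ := by ring
      _ ≤ (K : ℝ) * K * ((n / 2 : ℕ) : ℝ) := by
          have e6 : (L : ℝ) ^ 2 * (49 / 100) ^ 2 ≤ (K : ℝ) * K := by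
            calc (L : ℝ) ^ 2 * (49 / 100) ^ 2 = (L * (49 / 100)) * (L * (49 / 100)) := by ring
              _ ≤ (K : ℝ) * K := mul_le_mul e1 e1 (by positivity) (Nat.cast_nonneg K)
          exact mul_le_mul e6 e2 (by positivity) (by positivity)
  calc (S : ℝ) * ((n + 1 : ℕ) : ℝ) * (n : ℝ) * 2 ^ (12 * (t + 1) + 4) *
      Real.exp (-((K : ℝ) * K * ((n / 2 : ℕ) : ℝ) / (16 * (n : ℝ) * ((n + 1 : ℕ) : ℝ))))
      ≤ 2 ^ (31 * t) * Real.exp (-(22 * t)) := by
        refine mul_le_mul h4 ?_ (Real.exp_pos _).le (by positivity)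
        rw [Real.exp_le_exp, neg_le_neg_iff]
        exact h6
    _ < Real.exp (22 * t) * Real.exp (-(22 * t)) :=
        mul_lt_mul_of_pos_right h5 (Real.exp_pos _)
    _ = 1 := by rw [← Real.exp_add]; simp

/-- **Lower bound for homogeneous lines.** -/
theorem lower {n L t : ℕ} (hn0 : 1 ≤ n) (hn : n < 2 ^ t) (hL : 2 ^ 15 * n * t ≤ L ^ 2)
    (R : Refutation (Fin (n + 1)) (Fin n))
    (h : ∀ Λ ∈ R.lines, R.C.Homogeneous L (n / 100) Λ) : 2 ^ t ≤ R.size := by
  classical
  by_contra hcon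
  push Not at hcon
  have ht : 1 ≤ t := by
    rcases Nat.eq_zero_or_pos t with h0 | h0
    · subst h0; simp at hn; omega
    · exact h0
  -- some block has `L` points
  have hLn : L ≤ n + 1 := by
    obtain ⟨u, v, -, hr⟩ := h ∅ R.empty_mem
    by_contra h1
    have h2 : rare u L = n + 1 := by
      unfold rare
      have : {i : Fin (n + 1) | {i' | u i' = u i}.ncard < L} = Set.univ := by
        rw [Set.eq_univ_iff_forall]
        intro i
        have h3 : {i' | u i' = u i}.ncard ≤ (Set.univ : Set (Fin (n + 1))).ncard :=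
          Set.ncard_le_ncard (Set.subset_univ _) Set.finite_univ
        rw [Set.ncard_univ, Nat.card_eq_fintype_card, Fintype.card_fin] at h3
        show {i' | u i' = u i}.ncard < L
        omega
      rw [this, Set.ncard_univ, Nat.card_eq_fintype_card, Fintype.card_fin]
    omega
  have hLL : L ^ 2 ≤ L * (2 * n) := by
    rw [pow_two]; exact Nat.mul_le_mul_left L (by omega)
  have htL : 2 ^ 14 * t ≤ L := by
    have h1 : n * (2 ^ 15 * t) ≤ n * (2 * L) := by
      calc n * (2 ^ 15 * t) = 2 ^ 15 * n * t := by ring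
        _ ≤ L * (2 * n) := hL.trans hLL
        _ = n * (2 * L) := by ring
    have h2 := Nat.le_of_mul_le_mul_left h1 (by omega)
    omega
  have hn1 : 1000 ≤ n := by omega
  set K := L / 2 with hK
  set T := t + 1 with hT
  have hcard : Nat.card R.ext.N = R.size := card_ext R
  obtain ⟨f, hf, hfm, hrich⟩ := exists_rich_all R.ext (m := n / 2) (K := K) (κ := 12 * T + 4)
    (by rw [Fintype.card_fin]; omega) (by rw [Fintype.card_fin]; omega)
    (by rw [Fintype.card_fin]; omega) (by rw [Fintype.card_fin]; omega)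
    (by rw [Fintype.card_fin]; omega) (by rw [Fintype.card_fin]; omega)
    (by
      rw [Fintype.card_fin, Fintype.card_fin, hcard]
      exact numeric ht hn hL hcon hn1 hK (by omega))
  have hT2 : 2 * Nat.card R.ext.N < 2 ^ T := by
    rw [hcard, hT, pow_succ]; omega
  -- the relevant nodes
  set B : Set R.ext.N := {a | ∃ Λ : R.lines, Below R.ext (R.ln Λ) a} with hB
  have hZ : Fintype.card (Fin (n + 1) ⊕ Fin n) = 2 * n + 1 := by
    rw [Fintype.card_sum, Fintype.card_fin, Fintype.card_fin]; omega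
  have hs1 : 3 * T * (2 * n + 1) / L ≤ n / 100 := by
    rw [Nat.le_div_iff_mul_le (by norm_num)]
    have h1 : 3 * T * (2 * n + 1) / L ≤ n / 200 := by
      apply Nat.div_le_of_le_mul
      have h2 : 3 * T * (2 * n + 1) ≤ 3 * (2 * t) * (3 * n) :=
        Nat.mul_le_mul (Nat.mul_le_mul_left 3 (by omega)) (by omega)
      have h3 : 2 ^ 14 * t * n ≤ L * n := Nat.mul_le_mul_right n htL
      have h4 : n ≤ 200 * (n / 200) + 199 := by omega
      have h5 : L * n ≤ L * (200 * (n / 200) + 199) := Nat.mul_le_mul_left L h4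
      have h6 : 1 ≤ n / 200 := by omega
      have h7 : L * 1 ≤ L * (n / 200) := Nat.mul_le_mul_left L h6
      nlinarith
    omega
  have hs2 : 3 * T * (2 * n + 1) / K ≤ n / 100 := by
    apply Nat.div_le_of_le_mul
    have h2 : 3 * T * (2 * n + 1) ≤ 3 * (2 * t) * (3 * n) :=
      Nat.mul_le_mul (Nat.mul_le_mul_left 3 (by omega)) (by omega)
    have h3 : 2 ^ 12 * t * n ≤ K * n := Nat.mul_le_mul_right n (by omega)
    have h4 : n ≤ 100 * (n / 100) + 99 := by omega
    have h5 : K * n ≤ K * (100 * (n / 100) + 99) := Nat.mul_le_mul_left K h4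
    have h6 : 1 ≤ n / 100 := by omega
    have h7 : K * 1 ≤ K * (n / 100) := Nat.mul_le_mul_left K h6
    nlinarith
  have hsmall : ∀ a ∈ B, (small R.ext K a).card ≤ 2 * (n / 100) := by
    rintro a ⟨Λ, hΛ⟩
    have h1 := small_card hΛ (K := K) (L := L) hT2 (by omega) (by omega) (by omega)
    have h2 := line_small (R := R) (Λ := Λ) (L := L) (by omega) (h Λ.1 Λ.2)
    rw [hZ] at h1
    omega
  have E := ev_pure (D := R.ext) (B := B) (f := f) (s := 3 * (n / 100)) (T := T) (K := K)
    (by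
      rintro a ⟨Λ, hΛ⟩ x hx
      exact ⟨Λ, hΛ.child hx⟩)
    hT2 (by omega) hf (fun a _ => hrich a)
    (fun a ha => (hsmall a ha).trans (by omega))
    (by
      intro a ha y hy
      have h1 := sup_card hy (M := K) hT2 (by omega) (by omega)
      have h2 := hsmall a ha
      rw [hZ] at h1
      omega)
    (by rw [Fintype.card_fin, Fintype.card_fin]; omega)
    (by rw [Fintype.card_fin]; omega)
  exact E.false (fun Λ => ⟨Λ, Below.refl⟩)

end Pool.Agent.H63.YL
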