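import Pool.Agent.H63.YL.Defs
import Pool.Agent.H66.SF.Giant

/-!
# Images of formulas, stabilisers, classes

`Img σ τ a b` is a groupoid; `st C a` is the stabiliser of the formula at `a` in the permutations of
`P ⊕ H` which respect the two sides; `cl C a x` is the class of `x` for the three-cycles of `st C a`;
`sup C a b` are the points whose class for `b` does not contain most of the class for `a`;
`Below C a b`: the node `b` is `a` or lies below `a`.
-/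

set_option autoImplicit false

namespace Pool.Agent.H63.YL

open Equiv

variable {P H : Type}

theorem img_one (C : Circuit P H) (a : C.N) : C.Img 1 1 a a := by
  refine ⟨fun a b => a = b, ?_, rfl⟩
  rintro a b rfl
  rcases h : C.gate a with ⟨i, j⟩ | S
  · exact Or.inl ⟨i, j, rfl, rfl⟩
  · exact Or.inr ⟨S, S, rfl, rfl, fun x hx => ⟨x, hx, rfl, rfl⟩, fun x hx => ⟨x, hx, rfl, rfl⟩⟩

theorem Circuit.Img.symm {C : Circuit P H} {σ : Perm P} {τ : Perm H} {a b : C.N}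
    (h : C.Img σ τ a b) : C.Img σ⁻¹ τ⁻¹ b a := by
  obtain ⟨r, hr, hab⟩ := h
  refine ⟨fun x y => r y x, ?_, hab⟩
  intro x y hxy
  rcases hr y x hxy with ⟨i, j, h1, h2⟩ | ⟨S, T, h1, h2, h3, h4⟩
  · exact Or.inl ⟨σ i, τ j, h2, by simpa using h1⟩
  · refine Or.inr ⟨T, S, h2, h1, ?_, ?_⟩
    · intro x hx
      obtain ⟨y, hy, h5, h6⟩ := h4 x hx
      exact ⟨y, hy, h5, h6⟩
    · intro x hx
      obtain ⟨y, hy, h5, h6⟩ := h3 x hx
      exact ⟨y, hy, h5, h6⟩

theorem Circuit.Img.trans {C : Circuit P H} {σ σ' : Perm P} {τ τ' : Perm H} {a b c : C.N}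
    (h : C.Img σ τ a b) (h' : C.Img σ' τ' b c) : C.Img (σ' * σ) (τ' * τ) a c := by
  obtain ⟨r, hr, hab⟩ := h
  obtain ⟨r', hr', hbc⟩ := h'
  refine ⟨fun x z => ∃ y, r x y ∧ r' y z, ?_, b, hab, hbc⟩
  rintro x z ⟨y, hxy, hyz⟩
  rcases hr x y hxy with ⟨i, j, h1, h2⟩ | ⟨S, T, h1, h2, h3, h4⟩
  · rcases hr' y z hyz with ⟨i', j', h5, h6⟩ | ⟨S', T', h5, h6, h7, h8⟩
    · rw [h2] at h5
      injection h5 with h5 h9
      subst h5 h9
      exact Or.inl ⟨i, j, h1, h6⟩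
    · rw [h2] at h5; cases h5
  · rcases hr' y z hyz with ⟨i', j', h5, h6⟩ | ⟨S', T', h5, h6, h7, h8⟩
    · rw [h2] at h5; cases h5
    · rw [h2] at h5
      injection h5 with h5
      subst h5
      refine Or.inr ⟨S, T', h1, h6, ?_, ?_⟩
      · intro x hx
        obtain ⟨y, hy, e1, e2⟩ := h3 x hx
        obtain ⟨z, hz, e3, e4⟩ := h7 y hy
        exact ⟨z, hz, e3.trans e1, y.node, e2, e4⟩
      · intro z hz
        obtain ⟨y, hy, e1, e2⟩ := h8 z hz
        obtain ⟨x, hx, e3, e4⟩ := h4 y hy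
        exact ⟨x, hx, e3.trans e1, y.node, e4, e2⟩

theorem Circuit.Img.gate {C : Circuit P H} {σ : Perm P} {τ : Perm H} {a b : C.N}
    (h : C.Img σ τ a b) :
    (∃ i j, C.gate a = .var i j ∧ C.gate b = .var (σ i) (τ j)) ∨
    ∃ S T, C.gate a = .and S ∧ C.gate b = .and T ∧
      (∀ x ∈ S, ∃ y ∈ T, y.pos = x.pos ∧ C.Img σ τ x.node y.node) ∧
      ∀ y ∈ T, ∃ x ∈ S, x.pos = y.pos ∧ C.Img σ τ x.node y.node := by
  obtain ⟨r, hr, hab⟩ := h
  rcases hr a b hab with h | ⟨S, T, h1, h2, h3, h4⟩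
  · exact Or.inl h
  · refine Or.inr ⟨S, T, h1, h2, ?_, ?_⟩
    · intro x hx
      obtain ⟨y, hy, e1, e2⟩ := h3 x hx
      exact ⟨y, hy, e1, r, hr, e2⟩
    · intro y hy
      obtain ⟨x, hx, e1, e2⟩ := h4 y hy
      exact ⟨x, hx, e1, r, hr, e2⟩

theorem Circuit.Img.of_gate {C : Circuit P H} {a b : C.N} (h : C.gate a = C.gate b) :
    C.Img 1 1 a b := by
  refine ⟨fun x y => x = y ∨ (x = a ∧ y = b), ?_, Or.inr ⟨rfl, rfl⟩⟩
  intro x y hxy
  have h1 : C.gate x = C.gate y := by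
    rcases hxy with rfl | ⟨rfl, rfl⟩
    · rfl
    · exact h
  rcases h2 : C.gate x with ⟨i, j⟩ | S
  · exact Or.inl ⟨i, j, rfl, by rw [← h1, h2]; rfl⟩
  · exact Or.inr ⟨S, S, rfl, by rw [← h1, h2], fun x hx => ⟨x, hx, rfl, Or.inl rfl⟩,
      fun x hx => ⟨x, hx, rfl, Or.inl rfl⟩⟩

/-- `b` is `a` or lies below `a` in the circuit -/
inductive Below (C : Circuit P H) (a : C.N) : C.N → Prop
  | refl : Below C a a
  | child {b : C.N} {x : Lit C.N} : Below C a b → x ∈ (C.gate b).children → Below C a x.node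

theorem Below.trans {C : Circuit P H} {a b c : C.N} (h : Below C a b) (h' : Below C b c) :
    Below C a c := by
  induction h' with
  | refl => exact h
  | child _ hx ih => exact ih.child hx

theorem Below.img {C : Circuit P H} {σ : Perm P} {τ : Perm H} {a a' b : C.N}
    (h : Below C a b) (hi : C.Img σ τ a a') : ∃ b', Below C a' b' ∧ C.Img σ τ b b' := by
  induction h with
  | refl => exact ⟨a', Below.refl, hi⟩
  | @child b x hb hx ih =>
    obtain ⟨b', hb', hi'⟩ := ih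
    rcases hi'.gate with ⟨i, j, h1, h2⟩ | ⟨S, T, h1, h2, h3, h4⟩
    · rw [h1] at hx; exact absurd hx (by simp [Gate.children])
    · rw [h1] at hx
      obtain ⟨y, hy, -, e⟩ := h3 x hx
      exact ⟨y.node, hb'.child (by rw [h2]; exact hy), e⟩

/-- the permutation of `P ⊕ H` given by permutations of the two sides -/
abbrev pr (σ : Perm P) (τ : Perm H) : Perm (P ⊕ H) := Equiv.sumCongr σ τ

theorem pr_mul (σ σ' : Perm P) (τ τ' : Perm H) : pr σ τ * pr σ' τ' = pr (σ * σ') (τ * τ') := by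
  ext x; rcases x with x | x <;> rfl

theorem pr_one : pr (1 : Perm P) (1 : Perm H) = 1 := by
  ext x; rcases x with x | x <;> rfl

theorem pr_inv (σ : Perm P) (τ : Perm H) : (pr σ τ)⁻¹ = pr σ⁻¹ τ⁻¹ := by
  rw [inv_eq_iff_mul_eq_one, pr_mul, mul_inv_cancel, mul_inv_cancel, pr_one]

/-- the stabiliser of the formula at `a` -/
def st (C : Circuit P H) (a : C.N) : Subgroup (Perm (P ⊕ H)) where
  carrier := {g | ∃ σ τ, g = pr σ τ ∧ C.Img σ τ a a}
  one_mem' := ⟨1, 1, pr_one.symm, img_one C a⟩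
  mul_mem' := by
    rintro _ _ ⟨σ, τ, rfl, h⟩ ⟨σ', τ', rfl, h'⟩
    exact ⟨σ * σ', τ * τ', pr_mul _ _ _ _, h'.trans h⟩
  inv_mem' := by
    rintro _ ⟨σ, τ, rfl, h⟩
    exact ⟨σ⁻¹, τ⁻¹, pr_inv _ _, h.symm⟩

theorem mem_st {C : Circuit P H} {a : C.N} {g : Perm (P ⊕ H)} :
    g ∈ st C a ↔ ∃ σ τ, g = pr σ τ ∧ C.Img σ τ a a := Iff.rfl

theorem pr_injective {σ σ' : Perm P} {τ τ' : Perm H} (h : pr σ τ = pr σ' τ') :
    σ = σ' ∧ τ = τ' := by
  constructor
  · ext i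
    have := congrArg (fun g : Perm (P ⊕ H) => g (Sum.inl i)) h
    simpa using this
  · ext j
    have := congrArg (fun g : Perm (P ⊕ H) => g (Sum.inr j)) h
    simpa using this

theorem pr_mem_st {C : Circuit P H} {a : C.N} {σ : Perm P} {τ : Perm H} :
    pr σ τ ∈ st C a ↔ C.Img σ τ a a := by
  constructor
  · rintro ⟨σ', τ', h, h'⟩
    obtain ⟨rfl, rfl⟩ := pr_injective h
    exact h'
  · exact fun h => ⟨σ, τ, rfl, h⟩

theorem conj_mem_st {C : Circuit P H} {a b : C.N} {σ : Perm P} {τ : Perm H}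
    (h : C.Img σ τ a b) {g : Perm (P ⊕ H)} (hg : g ∈ st C a) :
    pr σ τ * g * (pr σ τ)⁻¹ ∈ st C b := by
  obtain ⟨σ', τ', rfl, h'⟩ := hg
  rw [pr_inv, pr_mul, pr_mul, pr_mem_st]
  exact (h.symm.trans h').trans h

end Pool.Agent.H63.YL
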