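import Pool.Agent.H63.YL.Move
import Pool.Agent.H63.YL.Few

/-!
# The value does not depend on the pairs outside the support
-/

set_option autoImplicit false
set_option linter.unusedSectionVars false

namespace Pool.Agent.H63.YL

open Equiv Pool.Agent.H66.SF

variable {P H : Type} [Fintype P] [DecidableEq P] [Fintype H] [DecidableEq H]

theorem cl_var_inl {C : Circuit P H} {a : C.N} {i : P} {j : H} (h : C.gate a = .var i j) :
    cl C a (Sum.inl i) = {Sum.inl i} := by
  ext y
  rw [Finset.mem_singleton]
  constructor
  · intro hy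
    rcases mem_cls.1 hy with h1 | ⟨g, ⟨σ, τ, rfl, hg⟩, -, -, hx, -⟩
    · exact h1.symm
    · exfalso
      rcases hg.gate with ⟨i', j', h1, h2⟩ | ⟨S, T, h1, -⟩
      · rw [h] at h1 h2
        injection h1 with h3 h4
        injection h2 with h5 h6
        subst h3
        exact (Perm.mem_support.1 hx) (congrArg Sum.inl h5.symm)
      · rw [h] at h1; cases h1
  · rintro rfl; exact self_mem_cl C a _

theorem cl_var_inr {C : Circuit P H} {a : C.N} {i : P} {j : H} (h : C.gate a = .var i j) :
    cl C a (Sum.inr j) = {Sum.inr j} := by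
  ext y
  rw [Finset.mem_singleton]
  constructor
  · intro hy
    rcases mem_cls.1 hy with h1 | ⟨g, ⟨σ, τ, rfl, hg⟩, -, -, hx, -⟩
    · exact h1.symm
    · exfalso
      rcases hg.gate with ⟨i', j', h1, h2⟩ | ⟨S, T, h1, -⟩
      · rw [h] at h1 h2
        injection h1 with h3 h4
        injection h2 with h5 h6
        subst h4
        exact (Perm.mem_support.1 hx) (congrArg Sum.inr h6.symm)
      · rw [h] at h1; cases h1
  · rintro rfl; exact self_mem_cl C a _

theorem mem_sup_or_small {C : Circuit P H} {a b : C.N} {K : ℕ} (hK : 2 ≤ K) {x : P ⊕ H}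
    (h : cl C b x = {x}) : x ∈ sup C a b ∨ x ∈ small C K a := by
  by_cases h1 : (cl C a x).card < K
  · exact Or.inr (mem_small.2 h1)
  · left
    rw [mem_sup, h]
    have h2 := Finset.card_le_card (Finset.inter_subset_left (s₁ := {x}) (s₂ := cl C a x))
    rw [Finset.card_singleton] at h2
    omega

private theorem one_dir {C : Circuit P H} {T K : ℕ} (hT : 2 * Nat.card C.N < 2 ^ T)
    (hK : 12 * T ≤ K) {a : C.N} :
    ∀ (m : ℕ) {ψ : C.N} {α β : Finset (P × H)}, C.rank ψ ≤ m → Below C a ψ → PM α → PM β →
      Rich C a K (12 * T + 4) α → Rich C a K (12 * T + 4) β → small C K a ⊆ dm (α ∩ β) →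
      sup C a ψ ⊆ dm (α ∩ β) → (val C α ψ → val C β ψ) := by
  have hT0 : 0 < T := by
    rcases Nat.eq_zero_or_pos T with h | h
    · subst h
      have : Nonempty C.N := ⟨a⟩
      have := Nat.card_pos (α := C.N)
      simp at hT; omega
    · exact h
  intro m
  induction m using Nat.strong_induction_on with
  | _ m ih =>
    intro ψ α β hm hψ hα hβ hαr hβr hsm hsp
    rcases hg : C.gate ψ with ⟨i, j⟩ | S
    · -- a variable
      rw [val_var hg, val_var hg]
      intro h
      have h1 : Sum.inl i ∈ dm (α ∩ β) := by
        rcases mem_sup_or_small (a := a) (K := K) (by omega) (cl_var_inl hg) with h | h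
        · exact hsp h
        · exact hsm h
      obtain ⟨p, hp, hpx⟩ := mem_dm.1 h1
      have h2 := hα.eq_of_touch h (Finset.mem_inter.1 hp).1 (Or.inl rfl) hpx
      rw [h2]
      exact (Finset.mem_inter.1 hp).2
    · rw [val_and hg, val_and hg]
      intro hv y hy hys
      have hyc : y ∈ (C.gate ψ).children := by rw [hg]; exact hy
      have hrk : C.rank y.node < m := lt_of_lt_of_le (C.rank_lt ψ y hyc) hm
      have hay : Below C a y.node := hψ.child hyc
      -- the exceptional points relative to `a` are matched
      have hR : ∀ {δ : Finset (P × H)}, α ∩ β ⊆ δ → ∀ c, Below C ψ c → ∀ x, x ∉ dm δ →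
          (x ∈ sup C ψ c ↔ x ∈ sup C a c) := by
        intro δ hδ c hc x hx
        refine sup_iff hψ hc hT ?_ ?_
        · by_contra h
          exact hx (dm_mono hδ (hsm (mem_small.2 (by omega))))
        · intro h; exact hx (dm_mono hδ (hsp h))
      have hψy : Below C ψ y.node := Below.refl.child hyc
      have hW : sup C a y.node ⊆ dm β := by
        intro x hx
        by_contra h
        exact h (hys ((hR Finset.inter_subset_right _ hψy x h).2 hx))
      set γ : Finset (P × H) := open Classical in (α ∩ β).filter fun p =>
        Sum.inl p.1 ∈ small C K a ∪ sup C a ψ ∨ Sum.inr p.2 ∈ small C K a ∪ sup C a ψ with hγ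
      have hγα : γ ⊆ α := (Finset.filter_subset _ _).trans Finset.inter_subset_left
      have hγβ : γ ⊆ β := (Finset.filter_subset _ _).trans Finset.inter_subset_right
      have hdm : ∀ x ∈ small C K a ∪ sup C a ψ, x ∈ dm γ := by
        intro x hx
        have h1 : x ∈ dm (α ∩ β) := by
          rcases Finset.mem_union.1 hx with h | h
          · exact hsm h
          · exact hsp h
        obtain ⟨p, hp, hpx⟩ := mem_dm.1 h1
        refine mem_dm.2 ⟨p, ?_, hpx⟩
        rw [hγ, Finset.mem_filter]
        refine ⟨hp, ?_⟩
        rcases hpx with h | h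
        · left; rw [h]; exact hx
        · right; rw [h]; exact hx
      obtain ⟨σ, τ, γ', hI1, hI2, hI3, hI4, hI5, hI6, hI7⟩ := move (a := a) (ψ := ψ) hα hαr
        ((sup C a y.node) \ dm γ).card (β := β) (γ := γ) (W := sup C a y.node) hβ hβr hγα hγβ
        (fun x hx => hdm x (Finset.mem_union_left _ hx))
        (fun x hx => hdm x (Finset.mem_union_right _ hx)) hW
        (by
          intro i j hi hj
          have e1 := few hψ hT (x := Sum.inl i) (by omega)
          have e2 := few hψ hT (x := Sum.inr j) (by omega)
          have e3 := few hay hT (x := Sum.inl i) (by omega)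
          have e4 := few hay hT (x := Sum.inr j) (by omega)
          have e5 : (cell C a γ i j).card ≤ (sup C a ψ ∩ cl C a (Sum.inl i)).card +
              (sup C a ψ ∩ cl C a (Sum.inr j)).card := by
            have c1 : cell C a γ i j ⊆
                ((cell C a γ i j).filter fun p => Sum.inl p.1 ∈ sup C a ψ) ∪
                ((cell C a γ i j).filter fun p => Sum.inr p.2 ∈ sup C a ψ) := by
              intro p hp
              rw [Finset.mem_union, Finset.mem_filter, Finset.mem_filter]
              obtain ⟨c2, c3, c4⟩ := mem_cell.1 hp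
              rw [hγ, Finset.mem_filter] at c2
              rcases c2.2 with c | c
              · rcases Finset.mem_union.1 c with c | c
                · exfalso
                  rw [mem_small, cl_eq_of_mem c3] at c; omega
                · left; exact ⟨hp, c⟩
              · rcases Finset.mem_union.1 c with c | c
                · exfalso
                  rw [mem_small, cl_eq_of_mem c4] at c; omega
                · right; exact ⟨hp, c⟩
            refine (Finset.card_le_card c1).trans ((Finset.card_union_le _ _).trans ?_)
            refine Nat.add_le_add ?_ ?_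
            · refine Finset.card_le_card_of_injOn (fun p => Sum.inl p.1) ?_ ?_
              · intro p hp
                obtain ⟨d1, d2⟩ := Finset.mem_filter.1 hp
                exact Finset.mem_inter.2 ⟨d2, (mem_cell.1 d1).2.1⟩
              · intro p hp q hq hpq
                have d1 := (mem_cell.1 (Finset.mem_filter.1 hp).1).1
                have d2 := (mem_cell.1 (Finset.mem_filter.1 hq).1).1
                exact hα.eq_of_touch (hγα d1) (hγα d2) (Or.inl hpq) (Or.inl rfl)
            · refine Finset.card_le_card_of_injOn (fun p => Sum.inr p.2) ?_ ?_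
              · intro p hp
                obtain ⟨d1, d2⟩ := Finset.mem_filter.1 hp
                exact Finset.mem_inter.2 ⟨d2, (mem_cell.1 d1).2.2⟩
              · intro p hp q hq hpq
                have d1 := (mem_cell.1 (Finset.mem_filter.1 hp).1).1
                have d2 := (mem_cell.1 (Finset.mem_filter.1 hq).1).1
                exact hα.eq_of_touch (hγα d1) (hγα d2) (Or.inr hpq) (Or.inr rfl)
          have e6 : ((sup C a y.node \ dm γ) ∩ (cl C a (Sum.inl i) ∪ cl C a (Sum.inr j))).card ≤
              (sup C a y.node ∩ cl C a (Sum.inl i)).card +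
              (sup C a y.node ∩ cl C a (Sum.inr j)).card := by
            refine (Finset.card_le_card (?_ : _ ⊆ (sup C a y.node ∩ cl C a (Sum.inl i)) ∪
              (sup C a y.node ∩ cl C a (Sum.inr j)))).trans (Finset.card_union_le _ _)
            rw [← Finset.inter_union_distrib_left]
            exact Finset.inter_subset_inter_right Finset.sdiff_subset
          omega) le_rfl
      -- the moved conjunct
      obtain ⟨y₁, hy₁, hpos, hyy⟩ : ∃ y₁ ∈ S, y₁.pos = y.pos ∧ C.Img σ τ y.node y₁.node := by
        rcases hI2.gate with ⟨i, j, h1, -⟩ | ⟨S', T', h1, h2, h3, -⟩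
        · rw [hg] at h1; cases h1
        · rw [hg] at h1 h2
          injection h1 with h1
          injection h2 with h2
          subst h1 h2
          exact h3 y hy
      have hy₁c : y₁ ∈ (C.gate ψ).children := by rw [hg]; exact hy₁
      have hsup : sup C a y₁.node = (sup C a y.node).image (pr σ τ) := sup_img hI1 hyy
      have hγ' : γ' ⊆ α ∩ mv σ τ β := fun p hp => Finset.mem_inter.2 ⟨hI5 hp, hI6 hp⟩
      have hsm' : small C K a ⊆ dm γ' := fun x hx =>
        dm_mono hI4 (hdm x (Finset.mem_union_left _ hx))
      have h1 : val C α y₁.node → val C (mv σ τ β) y₁.node :=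
        ih _ (lt_of_lt_of_le (C.rank_lt ψ y₁ hy₁c) hm) le_rfl (hψ.child hy₁c) hα (hβ.mv σ τ) hαr
          (hβr.mv hI3) (hsm'.trans (dm_mono hγ')) (by rw [hsup]; exact hI7.trans (dm_mono hγ'))
      have h2 : val C (mv σ τ β) y₁.node → val C α y₁.node :=
        ih _ (lt_of_lt_of_le (C.rank_lt ψ y₁ hy₁c) hm) le_rfl (hψ.child hy₁c) (hβ.mv σ τ) hα
          (hβr.mv hI3) hαr (by rw [Finset.inter_comm]; exact hsm'.trans (dm_mono hγ'))
          (by rw [Finset.inter_comm, hsup]; exact hI7.trans (dm_mono hγ'))
      have h3 : sup C ψ y₁.node ⊆ dm α := by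
        intro x hx
        by_contra h
        have h4 := (hR Finset.inter_subset_left _ (Below.refl.child hy₁c) x h).1 hx
        rw [hsup] at h4
        exact h (dm_mono hI5 (hI7 h4))
      rw [← hpos, ← hv y₁ hy₁ h3, ← hyy.val β]
      exact ⟨h2, h1⟩

/-- **Invariance**: if the common pairs of `α` and `β` cover the points in small classes of `a` and
the exceptional points of `ψ`, and the cells of the large classes of `a` are rich in both, then `ψ`
has the same value at `α` and at `β`. -/
theorem inv {C : Circuit P H} {T K : ℕ} (hT : 2 * Nat.card C.N < 2 ^ T) (hK : 12 * T ≤ K)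
    {a ψ : C.N} {α β : Finset (P × H)} (hψ : Below C a ψ) (hα : PM α) (hβ : PM β)
    (hαr : Rich C a K (12 * T + 4) α) (hβr : Rich C a K (12 * T + 4) β)
    (hsm : small C K a ⊆ dm (α ∩ β)) (hsp : sup C a ψ ⊆ dm (α ∩ β)) :
    val C α ψ ↔ val C β ψ :=
  ⟨one_dir hT hK _ le_rfl hψ hα hβ hαr hβr hsm hsp,
    one_dir hT hK _ le_rfl hψ hβ hα hβr hαr (by rwa [Finset.inter_comm])
      (by rwa [Finset.inter_comm])⟩

end Pool.Agent.H63.YL
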