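import Pool.Agent.H63.YL.Val

/-!
# Moving the pairs of one matching onto the pairs of another one
-/

set_option autoImplicit false
set_option linter.unusedSectionVars false

namespace Pool.Agent.H63.YL

open Equiv

variable {P H : Type} [Fintype P] [DecidableEq P] [Fintype H] [DecidableEq H]

/-- the pairs of `α` between the class of the pigeon `i` and the class of the hole `j` -/
noncomputable def cell (C : Circuit P H) (a : C.N) (α : Finset (P × H)) (i : P) (j : H) :
    Finset (P × H) :=
  α.filter fun p => Sum.inl p.1 ∈ cl C a (Sum.inl i) ∧ Sum.inr p.2 ∈ cl C a (Sum.inr j)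

theorem mem_cell {C : Circuit P H} {a : C.N} {α : Finset (P × H)} {i : P} {j : H} {p : P × H} :
    p ∈ cell C a α i j ↔ p ∈ α ∧ Sum.inl p.1 ∈ cl C a (Sum.inl i) ∧
      Sum.inr p.2 ∈ cl C a (Sum.inr j) := by
  simp [cell]

/-- every cell of two classes with at least `K` points contains at least `M` pairs of `α` -/
def Rich (C : Circuit P H) (a : C.N) (K M : ℕ) (α : Finset (P × H)) : Prop :=
  ∀ i j, K ≤ (cl C a (Sum.inl i)).card → K ≤ (cl C a (Sum.inr j)).card →
    M ≤ (cell C a α i j).card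

theorem Rich.mono {C : Circuit P H} {a : C.N} {K M : ℕ} {α β : Finset (P × H)}
    (h : Rich C a K M α) (hαβ : α ⊆ β) : Rich C a K M β := by
  intro i j h1 h2
  refine (h i j h1 h2).trans (Finset.card_le_card ?_)
  intro p hp
  rw [mem_cell] at hp ⊢
  exact ⟨hαβ hp.1, hp.2⟩

theorem Rich.mv {C : Circuit P H} {a : C.N} {K M : ℕ} {α : Finset (P × H)} {σ : Perm P}
    {τ : Perm H} (hg : ∀ x, cl C a (pr σ τ x) = cl C a x) (h : Rich C a K M α) :
    Rich C a K M (mv σ τ α) := by
  intro i j h1 h2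
  refine (h i j h1 h2).trans ?_
  have hinj : Function.Injective (fun p : P × H => (σ p.1, τ p.2)) := by
    rintro ⟨i, j⟩ ⟨i', j'⟩ h
    simp only [Prod.mk.injEq, EmbeddingLike.apply_eq_iff_eq] at h
    exact Prod.ext h.1 h.2
  rw [← Finset.card_image_of_injective _ hinj]
  refine Finset.card_le_card ?_
  intro q hq
  obtain ⟨p, hp, rfl⟩ := Finset.mem_image.1 hq
  rw [mem_cell] at hp ⊢
  refine ⟨Finset.mem_image.2 ⟨p, hp.1, rfl⟩, ?_, ?_⟩
  · have h3 := hg (Sum.inl p.1)
    rw [mem_cl_comm] at hp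
    rw [mem_cl_comm, show (Sum.inl (σ p.1) : P ⊕ H) = pr σ τ (Sum.inl p.1) from rfl, h3]
    exact hp.2.1
  · have h3 := hg (Sum.inr p.2)
    have h4 := hp.2.2
    rw [mem_cl_comm] at h4
    rw [mem_cl_comm, show (Sum.inr (τ p.2) : P ⊕ H) = pr σ τ (Sum.inr p.2) from rfl, h3]
    exact h4

/-- a permutation of one class (a three-cycle or the identity) which maps `x` to `y` -/
private theorem cycle {C : Circuit P H} {a ψ : C.N} {x y u : P ⊕ H} {D : Finset (P ⊕ H)}
    (hD : sup C a ψ ⊆ D) (hx : x ∉ D) (hy : y ∉ D) (hu : u ∉ D) (hyx : y ∈ cl C a x)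
    (hux : u ∈ cl C a x) (hxu : x ≠ u) (hyu : y ≠ u) :
    ∃ g : Perm (P ⊕ H), g ∈ st C a ∧ g ∈ st C ψ ∧ g x = y ∧ (∀ z ∈ D, g z = z) ∧
      (∀ z, cl C a (g z) = cl C a z) ∧ (∀ z, z.isLeft ≠ x.isLeft → g z = z) := by
  have hsx := cl_side hux
  have hsy := cl_side hyx
  by_cases hxy : x = y
  · subst hxy
    exact ⟨1, (st C a).one_mem, (st C ψ).one_mem, rfl, fun _ _ => rfl, fun _ => rfl,
      fun _ _ => rfl⟩
  · have h3 : (swap x u * swap x y).IsThreeCycle :=
      Perm.isThreeCycle_swap_mul_swap_same hxu hxy (Ne.symm hyu)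
    have hfix : ∀ z, z ≠ x → z ≠ y → z ≠ u → (swap x u * swap x y) z = z := by
      intro z h4 h5 h6
      rw [Perm.mul_apply, swap_apply_of_ne_of_ne h4 h5, swap_apply_of_ne_of_ne h4 h6]
    have hsub : ∀ c : C.N, y ∈ cl C c x → u ∈ cl C c x →
        (swap x u * swap x y).support ⊆ cl C c x := by
      intro c h7 h8 z hz
      by_contra hzc
      refine (Perm.mem_support.1 hz) (hfix z ?_ ?_ ?_)
      · rintro rfl; exact hzc (self_mem_cl C c _)
      · rintro rfl; exact hzc h7
      · rintro rfl; exact hzc h8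
    refine ⟨swap x u * swap x y, threeCycle_mem_st (x := x) h3 (hsub a hyx hux), ?_, ?_, ?_, ?_, ?_⟩
    · refine threeCycle_mem_st (x := x) h3 (hsub ψ ?_ ?_)
      · rw [cl_eq_of_notMem_sup hyx (fun h => hx (hD h)) (fun h => hy (hD h))]
        exact self_mem_cl C ψ y
      · rw [cl_eq_of_notMem_sup hux (fun h => hx (hD h)) (fun h => hu (hD h))]
        exact self_mem_cl C ψ u
    · rw [Perm.mul_apply, swap_apply_left, swap_apply_of_ne_of_ne (Ne.symm hxy) hyu]
    · intro z hz
      refine hfix z ?_ ?_ ?_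
      · rintro rfl; exact hx hz
      · rintro rfl; exact hy hz
      · rintro rfl; exact hu hz
    · intro z
      by_cases hz : z ∈ cl C a x
      · have h9 : (swap x u * swap x y) z ∈ cl C a x := by
          by_cases h10 : z ∈ (swap x u * swap x y).support
          · exact hsub a hyx hux (Perm.apply_mem_support.2 h10)
          · rw [Perm.notMem_support.1 h10]; exact hz
        rw [cl_eq_of_mem h9, cl_eq_of_mem hz]
      · rw [hfix z]
        · rintro rfl; exact hz (self_mem_cl C a _)
        · rintro rfl; exact hz hyx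
        · rintro rfl; exact hz hux
    · intro z hz
      refine hfix z ?_ ?_ ?_
      · rintro rfl; exact hz rfl
      · rintro rfl; exact hz hsy.symm
      · rintro rfl; exact hz hsx.symm

theorem move {C : Circuit P H} {a ψ : C.N} {K M : ℕ} {α : Finset (P × H)} (hα : PM α)
    (hαr : Rich C a K M α) :
    ∀ (m : ℕ) {β γ : Finset (P × H)} {W : Finset (P ⊕ H)}, PM β → Rich C a K M β → γ ⊆ α →
      γ ⊆ β → small C K a ⊆ dm γ → sup C a ψ ⊆ dm γ → W ⊆ dm β →
      (∀ i j, K ≤ (cl C a (Sum.inl i)).card → K ≤ (cl C a (Sum.inr j)).card →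
        (cell C a γ i j).card +
          ((W \ dm γ) ∩ (cl C a (Sum.inl i) ∪ cl C a (Sum.inr j))).card + 4 ≤ M) →
      (W \ dm γ).card ≤ m →
      ∃ (σ : Perm P) (τ : Perm H) (γ' : Finset (P × H)), C.Img σ τ a a ∧ C.Img σ τ ψ ψ ∧
        (∀ x, cl C a (pr σ τ x) = cl C a x) ∧ γ ⊆ γ' ∧ γ' ⊆ α ∧ γ' ⊆ mv σ τ β ∧
        W.image (pr σ τ) ⊆ dm γ' := by
  intro m
  induction m with
  | zero =>
    intro β γ W hβ hβr h1 h2 h3 h4 h5 h6 h7
    have h8 : W ⊆ dm γ := by
      rw [← Finset.sdiff_eq_empty_iff_subset, ← Finset.card_eq_zero]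
      omega
    refine ⟨1, 1, γ, img_one C a, img_one C ψ, ?_, subset_rfl, h1, ?_, ?_⟩
    · intro x; rw [pr_one]; rfl
    · intro p hp; rw [mem_mv]; simpa using h2 hp
    · intro x hx
      rw [pr_one] at hx
      simp only [Perm.coe_one, Finset.image_id] at hx
      exact h8 hx
  | succ m ih =>
    intro β γ W hβ hβr h1 h2 h3 h4 h5 h6 h7
    by_cases hle : (W \ dm γ).card ≤ m
    · exact ih hβ hβr h1 h2 h3 h4 h5 h6 hle
    obtain ⟨w, hw⟩ : (W \ dm γ).Nonempty := by
      rw [← Finset.card_pos]; omega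
    obtain ⟨hwW, hwγ⟩ := Finset.mem_sdiff.1 hw
    obtain ⟨⟨i, j⟩, hp, hpw⟩ := mem_dm.1 (h5 hwW)
    -- points of pairs outside `γ` are not matched by `γ`
    have hout : ∀ {δ : Finset (P × H)}, PM δ → γ ⊆ δ → ∀ p ∈ δ, p ∉ γ →
        Sum.inl p.1 ∉ dm γ ∧ Sum.inr p.2 ∉ dm γ := by
      intro δ hδ hγδ p hp hpγ
      constructor
      · intro h
        obtain ⟨q, hq, hqx⟩ := mem_dm.1 h
        have := hδ.eq_of_touch hp (hγδ hq) (Or.inl rfl) hqx
        exact hpγ (this ▸ hq)
      · intro h
        obtain ⟨q, hq, hqx⟩ := mem_dm.1 h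
        have := hδ.eq_of_touch hp (hγδ hq) (Or.inr rfl) hqx
        exact hpγ (this ▸ hq)
    have hpγ : (i, j) ∉ γ := fun h => hwγ (mem_dm.2 ⟨(i, j), h, hpw⟩)
    obtain ⟨hi, hj⟩ := hout hβ h2 _ hp hpγ
    simp only at hi hj
    have hKi : K ≤ (cl C a (Sum.inl i)).card := by
      by_contra h
      exact hi (h3 (mem_small.2 (by omega)))
    have hKj : K ≤ (cl C a (Sum.inr j)).card := by
      by_contra h
      exact hj (h3 (mem_small.2 (by omega)))
    have h8 := h6 i j hKi hKj
    have hwc : w ∈ (W \ dm γ) ∩ (cl C a (Sum.inl i) ∪ cl C a (Sum.inr j)) := by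
      refine Finset.mem_inter.2 ⟨hw, Finset.mem_union.2 ?_⟩
      rcases hpw with h | h
      · left; rw [← h]; exact self_mem_cl C a _
      · right; rw [← h]; exact self_mem_cl C a _
    have hwcard : 0 < ((W \ dm γ) ∩ (cl C a (Sum.inl i) ∪ cl C a (Sum.inr j))).card :=
      Finset.card_pos.2 ⟨w, hwc⟩
    -- the new pair of `α`
    obtain ⟨q, hq, hqγ⟩ : ∃ q ∈ cell C a α i j, q ∉ γ := by
      by_contra h
      push Not at h
      have h9 := Finset.card_le_card (show cell C a α i j ⊆ cell C a γ i j from fun q hq =>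
        mem_cell.2 ⟨h q hq, (mem_cell.1 hq).2⟩)
      have h10 := hαr i j hKi hKj
      omega
    obtain ⟨hqα, hqi, hqj⟩ := mem_cell.1 hq
    obtain ⟨hq1, hq2⟩ := hout hα h1 _ hqα hqγ
    -- the third points
    obtain ⟨p', hp', hp'γ, hn1, hn2, hn3, hn4⟩ : ∃ p' ∈ cell C a β i j, p' ∉ γ ∧ p'.1 ≠ i ∧
        p'.1 ≠ q.1 ∧ p'.2 ≠ j ∧ p'.2 ≠ q.2 := by
      by_contra h
      push Not at h
      have h9 := hβr i j hKi hKj
      have h10 : cell C a β i j ⊆ cell C a γ i j ∪ ((cell C a β i j).filter (fun p' => p'.1 = i) ∪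
          ((cell C a β i j).filter (fun p' => p'.1 = q.1) ∪
          ((cell C a β i j).filter (fun p' => p'.2 = j) ∪
          (cell C a β i j).filter (fun p' => p'.2 = q.2)))) := by
        intro p' hp'
        simp only [Finset.mem_union, Finset.mem_filter]
        by_cases e0 : p' ∈ γ
        · left; exact mem_cell.2 ⟨e0, (mem_cell.1 hp').2⟩
        · right
          by_cases e1 : p'.1 = i
          · left; exact ⟨hp', e1⟩
          · right
            by_cases e2 : p'.1 = q.1
            · left; exact ⟨hp', e2⟩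
            · right
              by_cases e3 : p'.2 = j
              · left; exact ⟨hp', e3⟩
              · right; exact ⟨hp', h p' hp' e0 e1 e2 e3⟩
      have hone1 : ∀ k : P, ((cell C a β i j).filter (fun p' => p'.1 = k)).card ≤ 1 := by
        intro k
        rw [Finset.card_le_one]
        intro x hx y hy
        obtain ⟨hx1, hx2⟩ := Finset.mem_filter.1 hx
        obtain ⟨hy1, hy2⟩ := Finset.mem_filter.1 hy
        have e := hβ x (mem_cell.1 hx1).1 y (mem_cell.1 hy1).1
        exact Prod.ext (hx2.trans hy2.symm) (e.1 (hx2.trans hy2.symm))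
      have hone2 : ∀ k : H, ((cell C a β i j).filter (fun p' => p'.2 = k)).card ≤ 1 := by
        intro k
        rw [Finset.card_le_one]
        intro x hx y hy
        obtain ⟨hx1, hx2⟩ := Finset.mem_filter.1 hx
        obtain ⟨hy1, hy2⟩ := Finset.mem_filter.1 hy
        have e := hβ x (mem_cell.1 hx1).1 y (mem_cell.1 hy1).1
        exact Prod.ext (e.2 (hx2.trans hy2.symm)) (hx2.trans hy2.symm)
      have h11 := Finset.card_le_card h10
      have h12 := Finset.card_union_le (cell C a γ i j)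
        ((cell C a β i j).filter (fun p' => p'.1 = i) ∪
          ((cell C a β i j).filter (fun p' => p'.1 = q.1) ∪
          ((cell C a β i j).filter (fun p' => p'.2 = j) ∪
          (cell C a β i j).filter (fun p' => p'.2 = q.2))))
      have h13 := Finset.card_union_le ((cell C a β i j).filter (fun p' => p'.1 = i))
          ((cell C a β i j).filter (fun p' => p'.1 = q.1) ∪
          ((cell C a β i j).filter (fun p' => p'.2 = j) ∪
          (cell C a β i j).filter (fun p' => p'.2 = q.2)))
      have h14 := Finset.card_union_le ((cell C a β i j).filter (fun p' => p'.1 = q.1))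
          ((cell C a β i j).filter (fun p' => p'.2 = j) ∪
          (cell C a β i j).filter (fun p' => p'.2 = q.2))
      have h15 := Finset.card_union_le ((cell C a β i j).filter (fun p' => p'.2 = j))
          ((cell C a β i j).filter (fun p' => p'.2 = q.2))
      have e1 := hone1 i
      have e2 := hone1 q.1
      have e3 := hone2 j
      have e4 := hone2 q.2
      omega
    obtain ⟨hp'β, hp'i, hp'j⟩ := mem_cell.1 hp'
    obtain ⟨hp1, hp2⟩ := hout hβ h2 _ hp'β hp'γ
    obtain ⟨g, hga, hgψ, hgx, hgD, hgc, hgs⟩ := cycle (a := a) h4 hi hq1 hp1 hqi hp'i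
      (fun e => hn1 (Sum.inl_injective e).symm) (fun e => hn2 (Sum.inl_injective e).symm)
    obtain ⟨k, hka, hkψ, hkx, hkD, hkc, hks⟩ := cycle (a := a) h4 hj hq2 hp2 hqj hp'j
      (fun e => hn3 (Sum.inr_injective e).symm) (fun e => hn4 (Sum.inr_injective e).symm)
    obtain ⟨σ₁, τ₁, hg, hg1⟩ := mem_st.1 (mul_mem hga hka)
    have hg2 : C.Img σ₁ τ₁ ψ ψ := by
      rw [← pr_mem_st, ← hg]; exact mul_mem hgψ hkψ
    have hgcl : ∀ x, cl C a (pr σ₁ τ₁ x) = cl C a x := by
      intro x
      rw [← hg, Perm.mul_apply, hgc, hkc]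
    have hgD' : ∀ x ∈ dm γ, pr σ₁ τ₁ x = x := by
      intro x hx
      rw [← hg, Perm.mul_apply, hkD x hx, hgD x hx]
    have hgi : σ₁ i = q.1 := by
      have e : pr σ₁ τ₁ (Sum.inl i) = Sum.inl q.1 := by
        rw [← hg, Perm.mul_apply, hks (Sum.inl i) (by simp), hgx]
      exact Sum.inl_injective e
    have hgj : τ₁ j = q.2 := by
      have e : pr σ₁ τ₁ (Sum.inr j) = Sum.inr q.2 := by
        rw [← hg, Perm.mul_apply, hkx, hgs (Sum.inr q.2) (by simp)]
      exact Sum.inr_injective e
    have hγmv : γ ⊆ mv σ₁ τ₁ β := by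
      intro p hp
      refine Finset.mem_image.2 ⟨p, h2 hp, ?_⟩
      have e1 := hgD' (Sum.inl p.1) (mem_dm.2 ⟨p, hp, Or.inl rfl⟩)
      have e2 := hgD' (Sum.inr p.2) (mem_dm.2 ⟨p, hp, Or.inr rfl⟩)
      exact Prod.ext (Sum.inl_injective e1) (Sum.inr_injective e2)
    have hqmv : q ∈ mv σ₁ τ₁ β := Finset.mem_image.2 ⟨(i, j), hp, Prod.ext hgi hgj⟩
    have hsub : W.image (pr σ₁ τ₁) \ dm (insert q γ) ⊆
        ((W \ dm γ).erase w).image (pr σ₁ τ₁) := by
      intro x hx
      obtain ⟨hx1, hx2⟩ := Finset.mem_sdiff.1 hx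
      obtain ⟨w', hw', rfl⟩ := Finset.mem_image.1 hx1
      refine Finset.mem_image.2 ⟨w', Finset.mem_erase.2 ⟨?_, Finset.mem_sdiff.2 ⟨hw', ?_⟩⟩, rfl⟩
      · rintro rfl
        apply hx2
        refine mem_dm.2 ⟨q, Finset.mem_insert_self _ _, ?_⟩
        have := (touch_mv σ₁ τ₁).2 hpw
        rwa [show ((σ₁ (i, j).1, τ₁ (i, j).2) : P × H) = q from Prod.ext hgi hgj] at this
      · intro h
        apply hx2
        rw [hgD' w' h]
        exact dm_mono (Finset.subset_insert _ _) h
    obtain ⟨σ, τ, γ', hI1, hI2, hI3, hI4, hI5, hI6, hI7⟩ := ih (β := mv σ₁ τ₁ β)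
      (γ := insert q γ) (W := W.image (pr σ₁ τ₁)) (hβ.mv _ _) (hβr.mv hgcl)
      (Finset.insert_subset hqα h1) (Finset.insert_subset hqmv hγmv)
      (h3.trans (dm_mono (Finset.subset_insert _ _)))
      (h4.trans (dm_mono (Finset.subset_insert _ _)))
      (by rw [dm_mv]; exact Finset.image_subset_image h5)
      (by
        intro i' j' hi' hj'
        have e1 := h6 i' j' hi' hj'
        have e2 : ((W.image (pr σ₁ τ₁) \ dm (insert q γ)) ∩
            (cl C a (Sum.inl i') ∪ cl C a (Sum.inr j'))).card ≤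
            (((W \ dm γ).erase w) ∩ (cl C a (Sum.inl i') ∪ cl C a (Sum.inr j'))).card := by
          refine le_trans (Finset.card_le_card ?_) (Finset.card_image_le (f := pr σ₁ τ₁))
          intro x hx
          obtain ⟨hx1, hx2⟩ := Finset.mem_inter.1 hx
          obtain ⟨w', hw', rfl⟩ := Finset.mem_image.1 (hsub hx1)
          refine Finset.mem_image.2 ⟨w', Finset.mem_inter.2 ⟨hw', ?_⟩, rfl⟩
          rw [Finset.mem_union] at hx2 ⊢
          rcases hx2 with h | h
          · left; rw [mem_cl_comm, ← hgcl w', ← mem_cl_comm]; exact h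
          · right; rw [mem_cl_comm, ← hgcl w', ← mem_cl_comm]; exact h
        by_cases hqc : Sum.inl q.1 ∈ cl C a (Sum.inl i') ∧ Sum.inr q.2 ∈ cl C a (Sum.inr j')
        · have e3 : (cell C a (insert q γ) i' j').card ≤ (cell C a γ i' j').card + 1 := by
            refine (Finset.card_le_card (?_ : _ ⊆ insert q (cell C a γ i' j'))).trans
              (Finset.card_insert_le _ _)
            intro p hp
            rw [mem_cell, Finset.mem_insert] at hp
            rw [Finset.mem_insert, mem_cell]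
            rcases hp with ⟨rfl | h, h'⟩
            · left; rfl
            · right; exact ⟨h, h'⟩
          have e4 : w ∈ (W \ dm γ) ∩ (cl C a (Sum.inl i') ∪ cl C a (Sum.inr j')) := by
            have c1 : cl C a (Sum.inl i') = cl C a (Sum.inl i) := by
              rw [← cl_eq_of_mem hqc.1, cl_eq_of_mem hqi]
            have c2 : cl C a (Sum.inr j') = cl C a (Sum.inr j) := by
              rw [← cl_eq_of_mem hqc.2, cl_eq_of_mem hqj]
            rw [c1, c2]; exact hwc
          have e5 : ((W \ dm γ).erase w) ∩ (cl C a (Sum.inl i') ∪ cl C a (Sum.inr j')) =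
              ((W \ dm γ) ∩ (cl C a (Sum.inl i') ∪ cl C a (Sum.inr j'))).erase w := by
            rw [Finset.erase_inter]
          rw [e5, Finset.card_erase_of_mem e4] at e2
          have e6 := Finset.card_pos.2 ⟨w, e4⟩
          omega
        · have e3 : (cell C a (insert q γ) i' j').card ≤ (cell C a γ i' j').card := by
            refine Finset.card_le_card ?_
            intro p hp
            rw [mem_cell, Finset.mem_insert] at hp
            rw [mem_cell]
            rcases hp with ⟨rfl | h, h'⟩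
            · exact absurd h' hqc
            · exact ⟨h, h'⟩
          have e4 := Finset.card_le_card (Finset.inter_subset_inter_right
            (u := cl C a (Sum.inl i') ∪ cl C a (Sum.inr j')) (Finset.erase_subset w (W \ dm γ)))
          omega)
      (by
        have e1 := Finset.card_le_card hsub
        rw [Finset.card_image_of_injective _ (pr σ₁ τ₁).injective,
          Finset.card_erase_of_mem hw] at e1
        omega)
    refine ⟨σ * σ₁, τ * τ₁, γ', hg1.trans hI1, hg2.trans hI2, ?_,
      (Finset.subset_insert _ _).trans hI4, hI5, ?_, ?_⟩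
    · intro x
      rw [← pr_mul, Perm.mul_apply, hI3, hgcl]
    · intro p hp
      have := hI6 hp
      rw [mem_mv, mem_mv] at this
      rw [mem_mv]
      simpa [mul_inv_rev, Perm.mul_apply] using this
    · intro x hx
      obtain ⟨w', hw', rfl⟩ := Finset.mem_image.1 hx
      apply hI7
      rw [← pr_mul, Perm.mul_apply]
      exact Finset.mem_image_of_mem _ (Finset.mem_image_of_mem _ hw')

end Pool.Agent.H63.YL
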