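import Mathlib

/-!
# Random permutations: an exponential moment of the size of `π(A) ∩ B`
-/

set_option autoImplicit false
set_option linter.unusedSectionVars false

namespace Pool.Agent.H63.YL

open Finset Equiv

variable {Ω : Type} [Fintype Ω] [DecidableEq Ω]

/-- the permutations which map `A` off `D` -/
private def off (A D : Finset Ω) : Finset (Perm Ω) :=
  univ.filter fun π => ∀ x ∈ A, π x ∉ D

private theorem off_step (A D : Finset Ω) {x : Ω} (hx : x ∉ A) :
    (Fintype.card Ω - A.card) * (off (insert x A) D).card =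
      (Fintype.card Ω - D.card - A.card) * (off A D).card := by
  have h1 : ∑ z ∈ Aᶜ, ((off A D).filter fun π => π z ∉ D).card =
      ∑ π ∈ off A D, (Aᶜ.filter fun z => π z ∉ D).card :=
    Finset.sum_card_bipartiteAbove_eq_sum_card_bipartiteBelow
      (fun (z : Ω) (π : Perm Ω) => π z ∉ D)
  have h2 : ∀ z ∈ Aᶜ, ((off A D).filter fun π => π z ∉ D).card = (off (insert x A) D).card := by
    intro z hz
    rw [mem_compl] at hz
    refine Finset.card_bij' (fun π _ => π * swap x z) (fun π _ => π * swap x z) ?_ ?_ ?_ ?_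
    · intro π hπ
      simp only [off, mem_filter, mem_univ, true_and] at hπ ⊢
      intro y hy
      rcases mem_insert.1 hy with rfl | hy'
      · rw [Perm.mul_apply, swap_apply_left]; exact hπ.2
      · rw [Perm.mul_apply, swap_apply_of_ne_of_ne]
        · exact hπ.1 y hy'
        · intro e; exact hx (e ▸ hy')
        · intro e; exact hz (e ▸ hy')
    · intro π hπ
      simp only [off, mem_filter, mem_univ, true_and] at hπ ⊢
      refine ⟨?_, ?_⟩
      · intro y hy
        rw [Perm.mul_apply, swap_apply_of_ne_of_ne]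
        · exact hπ y (mem_insert_of_mem hy)
        · rintro rfl; exact hx hy
        · rintro rfl; exact hz hy
      · rw [Perm.mul_apply, swap_apply_right]; exact hπ x (mem_insert_self _ _)
    · intro π _; rw [mul_assoc, swap_mul_self, mul_one]
    · intro π _; rw [mul_assoc, swap_mul_self, mul_one]
  have h3 : ∀ π ∈ off A D, (Aᶜ.filter fun z => π z ∉ D).card =
      Fintype.card Ω - D.card - A.card := by
    intro π hπ
    simp only [off, mem_filter, mem_univ, true_and] at hπ
    have h4 : (Aᶜ.filter fun z => π z ∉ D) = (Dᶜ.image π.symm) \ A := by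
      ext z
      simp only [mem_filter, mem_compl, mem_sdiff, mem_image]
      constructor
      · rintro ⟨h5, h6⟩
        exact ⟨⟨π z, h6, by simp⟩, h5⟩
      · rintro ⟨⟨y, h5, rfl⟩, h6⟩
        exact ⟨h6, by simpa using h5⟩
    rw [h4, card_sdiff_of_subset, card_image_of_injective _ π.symm.injective, card_compl]
    intro z hz
    exact mem_image.2 ⟨π z, mem_compl.2 (hπ z hz), by simp⟩
  rw [sum_congr rfl h2, sum_congr rfl h3, sum_const, sum_const, smul_eq_mul, smul_eq_mul,
    card_compl] at h1
  rw [h1, mul_comm]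

private theorem off_card (D : Finset Ω) (hΩ : 0 < Fintype.card Ω) (A : Finset Ω) :
    ((off A D).card : ℝ) ≤
      (Fintype.card (Perm Ω) : ℝ) * Real.exp (-((A.card : ℝ) * D.card / Fintype.card Ω)) := by
  induction A using Finset.induction_on with
  | empty =>
    simp only [card_empty, Nat.cast_zero, zero_mul, zero_div, neg_zero, Real.exp_zero, mul_one,
      Nat.cast_le]
    exact card_le_univ _
  | insert x A hx ih =>
    have h1 := off_step A D hx
    have hA : A.card < Fintype.card Ω := by
      rw [← card_univ]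
      exact card_lt_card ((ssubset_univ_iff).2 fun h => hx (h ▸ mem_univ x))
    have hD : D.card ≤ Fintype.card Ω := card_le_univ _
    rw [card_insert_of_notMem hx]
    -- the real inequality
    have h2 : ((off (insert x A) D).card : ℝ) ≤
        (1 - (D.card : ℝ) / Fintype.card Ω) * (off A D).card := by
      have hpos : (0 : ℝ) < Fintype.card Ω - A.card := by
        have : (A.card : ℝ) < Fintype.card Ω := by exact_mod_cast hA
        linarith
      have hN : (0 : ℝ) < Fintype.card Ω := by exact_mod_cast hΩ
      have h3 : ((Fintype.card Ω : ℝ) - A.card) * (off (insert x A) D).card ≤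
          ((Fintype.card Ω : ℝ) - A.card) *
            ((1 - (D.card : ℝ) / Fintype.card Ω) * (off A D).card) := by
        have h4 : ((Fintype.card Ω : ℝ) - A.card) * (off (insert x A) D).card =
            ((Fintype.card Ω - D.card - A.card : ℕ) : ℝ) * (off A D).card := by
          have h5 : ((Fintype.card Ω - A.card : ℕ) : ℝ) = (Fintype.card Ω : ℝ) - A.card := by
            rw [Nat.cast_sub hA.le]
          rw [← h5]
          exact_mod_cast h1
        rw [h4, ← mul_assoc]
        refine mul_le_mul_of_nonneg_right ?_ (Nat.cast_nonneg _)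
        have h6 : ((Fintype.card Ω : ℝ) - A.card) * (1 - (D.card : ℝ) / Fintype.card Ω) =
            (Fintype.card Ω : ℝ) - A.card - D.card + A.card * (D.card / Fintype.card Ω) := by
          field_simp
          ring
        rw [h6]
        have h7 : (0 : ℝ) ≤ A.card * (D.card / Fintype.card Ω) := by positivity
        rcases Nat.lt_or_ge (Fintype.card Ω - D.card) A.card with h8 | h8
        · rw [Nat.sub_eq_zero_of_le h8.le, Nat.cast_zero, ← h6]
          apply mul_nonneg hpos.le
          have : (D.card : ℝ) ≤ Fintype.card Ω := by exact_mod_cast hD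
          rw [sub_nonneg, div_le_one hN]
          exact this
        · rw [Nat.cast_sub h8, Nat.cast_sub hD]
          linarith
      exact le_of_mul_le_mul_left h3 hpos
    have h3 : (1 - (D.card : ℝ) / Fintype.card Ω) ≤
        Real.exp (-((D.card : ℝ) / Fintype.card Ω)) := by
      have := Real.add_one_le_exp (-((D.card : ℝ) / Fintype.card Ω))
      linarith
    calc ((off (insert x A) D).card : ℝ)
        ≤ (1 - (D.card : ℝ) / Fintype.card Ω) * (off A D).card := h2
      _ ≤ Real.exp (-((D.card : ℝ) / Fintype.card Ω)) * (off A D).card :=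
          mul_le_mul_of_nonneg_right h3 (Nat.cast_nonneg _)
      _ ≤ Real.exp (-((D.card : ℝ) / Fintype.card Ω)) * ((Fintype.card (Perm Ω) : ℝ) *
            Real.exp (-((A.card : ℝ) * D.card / Fintype.card Ω))) :=
          mul_le_mul_of_nonneg_left ih (Real.exp_pos _).le
      _ = _ := by
          rw [mul_left_comm, ← Real.exp_add]
          congr 2
          push_cast
          ring

theorem one_sub_exp {x : ℝ} (h0 : 0 ≤ x) (h1 : x ≤ 1) : x / 2 ≤ 1 - Real.exp (-x) := by
  have h2 : Real.exp (-x) ≤ 1 - x + x ^ 2 / 2 := by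
    have h4 := Real.quadratic_le_exp_of_nonneg h0
    have h5 : Real.exp (-x) * (1 + x + x ^ 2 / 2) ≤ 1 := by
      calc Real.exp (-x) * (1 + x + x ^ 2 / 2) ≤ Real.exp (-x) * Real.exp x :=
            mul_le_mul_of_nonneg_left h4 (Real.exp_pos _).le
        _ = 1 := by rw [← Real.exp_add]; simp
    have h6 : (1 : ℝ) ≤ (1 - x + x ^ 2 / 2) * (1 + x + x ^ 2 / 2) := by
      nlinarith [sq_nonneg (x ^ 2)]
    have h7 : (0 : ℝ) < 1 + x + x ^ 2 / 2 := by positivity
    exact le_of_mul_le_mul_right (h5.trans h6) h7
  nlinarith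

/-- **Exponential moment** of `|π(A) ∩ B|`. -/
theorem perm_moment (hΩ : 0 < Fintype.card Ω) (A B : Finset Ω) {w : ℝ} (h0 : 0 ≤ w) (h1 : w ≤ 1) :
    ∑ π : Perm Ω, w ^ (A.image π ∩ B).card ≤
      (Fintype.card (Perm Ω) : ℝ) *
        Real.exp (-((1 - w) * ((A.card : ℝ) * B.card / (2 * Fintype.card Ω)))) := by
  have hN : (0 : ℝ) < Fintype.card Ω := by exact_mod_cast hΩ
  -- thinning
  have h2 : ∀ π : Perm Ω, w ^ (A.image π ∩ B).card =
      ∑ D ∈ B.powerset, (1 - w) ^ D.card * w ^ (B \ D).card * (if π ∈ off A D then 1 else 0) := by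
    intro π
    have h3 : w ^ (A.image π ∩ B).card =
        ∏ y ∈ B, ((if y ∈ A.image π then (0 : ℝ) else (1 - w)) + w) := by
      have h4 : ∀ y ∈ B, ((if y ∈ A.image π then (0 : ℝ) else (1 - w)) + w) =
          if y ∈ A.image π then w else 1 := by
        intro y _
        split_ifs <;> ring
      rw [prod_congr rfl h4, prod_ite, prod_const, prod_const_one, mul_one, inter_comm,
        filter_mem_eq_inter]
    rw [h3, prod_add]
    refine sum_congr rfl fun D hD => ?_
    rw [prod_const]
    have h5 : ∏ y ∈ D, (if y ∈ A.image π then (0 : ℝ) else (1 - w)) =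
        (1 - w) ^ D.card * (if π ∈ off A D then 1 else 0) := by
      split_ifs with h6
      · rw [mul_one, ← prod_const]
        refine prod_congr rfl fun y hy => ?_
        rw [if_neg]
        intro h7
        obtain ⟨x, hx, rfl⟩ := mem_image.1 h7
        simp only [off, mem_filter, mem_univ, true_and] at h6
        exact h6 x hx hy
      · rw [mul_zero]
        simp only [off, mem_filter, mem_univ, true_and] at h6
        push Not at h6
        obtain ⟨x, hx, hxD⟩ := h6
        exact prod_eq_zero hxD (if_pos (mem_image_of_mem _ hx))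
    rw [h5]; ring
  rw [sum_congr rfl fun π _ => h2 π, sum_comm]
  have h3 : ∀ D ∈ B.powerset, ∑ π : Perm Ω,
      (1 - w) ^ D.card * w ^ (B \ D).card * (if π ∈ off A D then (1 : ℝ) else 0) ≤
      (Fintype.card (Perm Ω) : ℝ) * ((∏ _y ∈ D, (1 - w) *
        Real.exp (-((A.card : ℝ) / Fintype.card Ω))) * ∏ _y ∈ B \ D, w) := by
    intro D hD
    rw [← mul_sum, sum_ite_mem, univ_inter, sum_const, nsmul_eq_mul, mul_one, prod_const,
      prod_const, mul_pow, ← Real.exp_nat_mul]
    have h4 := off_card D hΩ A
    have h5 : (0 : ℝ) ≤ (1 - w) ^ D.card * w ^ (B \ D).card :=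
      mul_nonneg (pow_nonneg (by linarith) _) (pow_nonneg h0 _)
    calc (1 - w) ^ D.card * w ^ (B \ D).card * ((off A D).card : ℝ)
        ≤ (1 - w) ^ D.card * w ^ (B \ D).card * ((Fintype.card (Perm Ω) : ℝ) *
          Real.exp (-((A.card : ℝ) * D.card / Fintype.card Ω))) :=
          mul_le_mul_of_nonneg_left h4 h5
      _ = _ := by
          rw [show -((A.card : ℝ) * D.card / Fintype.card Ω) =
            (D.card : ℝ) * -((A.card : ℝ) / Fintype.card Ω) by ring]
          ring
  refine (sum_le_sum h3).trans ?_
  rw [← mul_sum, ← prod_add, prod_const]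
  refine mul_le_mul_of_nonneg_left ?_ (Nat.cast_nonneg _)
  -- the last estimate
  set x : ℝ := (A.card : ℝ) / Fintype.card Ω with hx
  have hx0 : 0 ≤ x := by positivity
  have hx1 : x ≤ 1 := by
    rw [hx, div_le_one hN]
    exact_mod_cast card_le_univ A
  have h4 := one_sub_exp hx0 hx1
  have h5 : (1 - w) * Real.exp (-x) + w ≤ Real.exp (-((1 - w) * (x / 2))) := by
    have h6 := Real.add_one_le_exp (-((1 - w) * (x / 2)))
    nlinarith
  have h6 : (0 : ℝ) ≤ (1 - w) * Real.exp (-x) + w :=
    add_nonneg (mul_nonneg (by linarith) (Real.exp_pos _).le) h0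
  calc ((1 - w) * Real.exp (-x) + w) ^ B.card
      ≤ (Real.exp (-((1 - w) * (x / 2)))) ^ B.card := pow_le_pow_left₀ h6 h5 _
    _ = _ := by
        rw [← Real.exp_nat_mul]
        congr 1
        rw [hx]
        field_simp

end Pool.Agent.H63.YL
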